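import Pool.Agent.Helper28H.QT.Stm
import Pool.Agent.Helper28H.FE.MainE

/-!
# Project QT, piece APP: the densities
-/

set_option autoImplicit false
set_option linter.all false

open Polynomial IsDedekindDomain

namespace Pool.Agent.Helper28H.QT

open Pool.Agent.Helper28H.FE
open Pool.Agent.N352.PJ (dsc)

namespace App

open scoped Classical in
/-- The cycle in the Galois group of the splitting field. -/
theorem cycle {g : ℕ} {k K : Type} [Field k] [Finite k] [Field K] [Algebra k[X] K]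
    [IsFractionRing k[X] K] {f : k[X][X]} {P₀ : k[X]} (hyp : Hyp K g f P₀) :
    ∃ (N : Type) (_ : Field N) (_ : Algebra K N) (_ : FiniteDimensional K N) (_ : IsGalois K N)
      (σ : N ≃ₐ[K] N) (x : N),
      f.map ((algebraMap K N).comp (algebraMap k[X] K)) =
        ∏ j ∈ Finset.range (2 * g + 1), (X - C ((σ ^ j) x)) ∧ (σ ^ (2 * g + 1)) x = x ∧
      Function.Injective (fun j : Fin (2 * g + 1) => (σ ^ (j : ℕ)) x) ∧
      IntermediateField.adjoin K (Set.range fun j : ℕ => (σ ^ j) x) = ⊤ := by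
  have hd0 : dsc g f ≠ 0 := by
    intro h0
    exact hyp.ndvd (by rw [h0]; exact dvd_zero _)
  set p : K[X] := f.map (algebraMap k[X] K) with hp
  have hmon : p.Monic := hyp.mon.map _
  have hsep : p.Separable := Galn.sepK hyp.mon hyp.deg hd0
  have hdeg : p.natDegree = 2 * g + 1 := by
    rw [hp, hyp.mon.natDegree_map, hyp.deg]
  obtain ⟨N, iF, iA, iFD, iG, hsp, hadj⟩ : ∃ (N : Type) (_ : Field N) (_ : Algebra K N)
      (_ : FiniteDimensional K N) (_ : IsGalois K N), (p.map (algebraMap K N)).Splits ∧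
      Algebra.adjoin K (p.rootSet N) = ⊤ := by
    refine ⟨p.SplittingField, inferInstance, inferInstance, inferInstance,
      IsGalois.of_separable_splitting_field (p := p) hsep, SplittingField.splits p,
      SplittingField.adjoin_rootSet p⟩
  obtain ⟨ρ, hρ, hρ2⟩ := Gal.exists_action (N := N) p hsep hsp (by rw [hdeg]; exact hyp.gal)
  obtain ⟨hcard, hprod⟩ := Gal.prod_rootSet (N := N) p hmon hsep hsp
  rw [hdeg] at hcard
  have hfN : f.map ((algebraMap K N).comp (algebraMap k[X] K)) =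
      ∏ s : p.rootSet N, (X - C (s : N)) := by
    rw [← hprod, hp, Polynomial.map_map]
  let e : p.rootSet N ≃ Fin (2 * g + 1) := Fintype.equivFinOfCardEq hcard
  obtain ⟨σ, hσ⟩ := hρ (e.symm.permCongr (finRotate (2 * g + 1)))
  have hσe : ∀ i : Fin (2 * g + 1), σ ((e.symm i : p.rootSet N) : N) =
      ((e.symm (finRotate (2 * g + 1) i) : p.rootSet N) : N) := by
    intro i
    have h1 := hρ2 σ (e.symm i)
    rw [← h1, hσ]
    simp [Equiv.permCongr_apply]
  have hpow : ∀ j : ℕ, (σ ^ j) ((e.symm 0 : p.rootSet N) : N) =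
      ((e.symm ((finRotate (2 * g + 1) ^ j) 0) : p.rootSet N) : N) := by
    intro j
    induction j with
    | zero => simp
    | succ j ih =>
      rw [pow_succ', AlgEquiv.mul_apply, ih, hσe, pow_succ', Equiv.Perm.mul_apply]
  have hrot : ∀ j : ℕ, j < 2 * g + 1 → (((finRotate (2 * g + 1) ^ j) 0 : Fin (2 * g + 1)) : ℕ) = j := by
    intro j
    induction j with
    | zero => intro _; simp
    | succ j ih =>
      intro hj
      rw [pow_succ', Equiv.Perm.mul_apply]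
      rw [coe_finRotate_of_ne_last, ih (by omega)]
      intro h
      have h2 := ih (by omega)
      rw [h] at h2
      simp only [Fin.val_last] at h2
      omega
  have hrot' : (finRotate (2 * g + 1) ^ (2 * g + 1)) 0 = 0 := by
    rw [pow_succ', Equiv.Perm.mul_apply]
    have h1 : (finRotate (2 * g + 1) ^ (2 * g)) 0 = Fin.last (2 * g) := by
      apply Fin.ext
      rw [hrot _ (by omega), Fin.val_last]
    rw [h1, finRotate_last]
  have hrotF : ∀ i : Fin (2 * g + 1), (finRotate (2 * g + 1) ^ (i : ℕ)) 0 = i := fun i =>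
    Fin.ext (hrot i i.isLt)
  refine ⟨N, iF, iA, iFD, iG, σ, ((e.symm 0 : p.rootSet N) : N), ?_, ?_, ?_, ?_⟩
  · rw [hfN, Finset.prod_range]
    rw [← Equiv.prod_comp e.symm fun s : p.rootSet N => (X - C (s : N))]
    refine Finset.prod_congr rfl fun i _ => ?_
    rw [hpow, hrotF]
  · rw [hpow, hrot']
  · intro i j hij
    have h1 : (σ ^ (i : ℕ)) ((e.symm 0 : p.rootSet N) : N) =
      (σ ^ (j : ℕ)) ((e.symm 0 : p.rootSet N) : N) := hij
    rw [hpow, hpow, hrotF, hrotF] at h1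
    exact e.symm.injective (Subtype.ext h1)
  · rw [eq_top_iff, ← IntermediateField.adjoin_eq_top_of_algebra K _ hadj]
    refine IntermediateField.adjoin.mono K _ _ fun s hs => ?_
    refine ⟨(e ⟨s, hs⟩ : Fin (2 * g + 1)), ?_⟩
    show (σ ^ ((e ⟨s, hs⟩ : Fin (2 * g + 1)) : ℕ)) _ = s
    rw [hpow, hrotF, Equiv.symm_apply_apply]

/-- The elements of `T` do not divide a prime of large degree. -/
theorem ndvd {k : Type} [Field k] {T : Finset k[X]} (hT : ∀ P ∈ T, P.Monic ∧ Irreducible P)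
    {Q : k[X]} (hQ : Q.Monic) (hQi : Irreducible Q) (hd : ∑ P ∈ T, P.natDegree < Q.natDegree) :
    ∀ P ∈ T, P ≠ Q ∧ ¬ P ∣ Q := by
  intro P hP
  have hne : P ≠ Q := by
    rintro rfl
    have h3 : P.natDegree ≤ ∑ P ∈ T, P.natDegree :=
      Finset.single_le_sum (f := fun P : k[X] => P.natDegree) (fun _ _ => Nat.zero_le _) hP
    omega
  exact ⟨hne, fun hd => hne (eq_of_monic_of_associated (hT P hP).1 hQ
    ((hT P hP).2.associated_of_dvd hQi hd))⟩

end App

open App in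
/-- **APP.** -/
theorem t_APP (hD : S_DFR) (hC : S_CYC) : S_APP := by
  classical
  intro g k K _ _ _ _ _ f P₀ hyp T hT
  have hT' : ∀ P ∈ T, P.Monic ∧ Irreducible P := fun P hP => ⟨(hT P hP).1, (hT P hP).2.1⟩
  -- the primes modulo which `f` is irreducible
  obtain ⟨w, B, hw, hMS, hwQ⟩ : ∃ (w : k[X] → ℝ) (B : ℝ), (∀ Q, 0 ≤ w Q ∧ w Q ≤ 1) ∧
      (∀ n : ℕ, (2 * g + 1 : ℝ)⁻¹ * n - B ≤ MS w n) ∧
      (∀ Q, w Q ≠ 0 → Q.Monic ∧ Irreducible Q ∧
      Irreducible (f.map (Ideal.Quotient.mk (Ideal.span {Q}))) ∧ ∀ P ∈ T, ¬ P ∣ Q) := by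
    obtain ⟨N, iF, iA, iFD, iG, σ, x, hf, hσ, hinj, hadj⟩ := cycle hyp
    letI iX : Algebra k[X] N := ((algebraMap K N).comp (algebraMap k[X] K)).toAlgebra
    haveI iS : IsScalarTower k[X] K N := IsScalarTower.of_algebraMap_eq' rfl
    obtain ⟨𝒞, hcard, hτ⟩ := hC g k K N f σ x hf hσ hinj hadj
    have hM : ∀ τ : N ≃ₐ[K] N, ∃ M : ℕ, τ ∈ 𝒞 → ∀ (Q : k[X]) (a : ℕ)
        (w : HeightOneSpectrum (integralClosure k[X] N)),
        Irreducible Q → M < Q.natDegree → algebraMap k[X] (integralClosure k[X] N) Q ∈ w.asIdeal →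
        a.Coprime (orderOf τ) →
        (∀ x y : integralClosure k[X] N, (τ ^ a) (x : N) = y →
          y - x ^ (Nat.card k ^ Q.natDegree) ∈ w.asIdeal) →
          Irreducible (f.map (Ideal.Quotient.mk (Ideal.span {Q}))) := by
      intro τ
      by_cases h : τ ∈ 𝒞
      · obtain ⟨-, y, hy1, hy2⟩ := hτ τ h
        obtain ⟨M, hM⟩ := DelA.core (k := k) g f P₀ hyp τ y hy2 hy1
        exact ⟨M, fun _ => hM⟩
      · exact ⟨0, fun h' => absurd h' h⟩
    choose M hM using hM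
    obtain ⟨w, B, h1, h2, h3⟩ := hD k K N 𝒞 (orderOf σ) (max (𝒞.sup M) (∑ P ∈ T, P.natDegree))
      fun τ h => (hτ τ h).1
    have hG : 0 < Nat.card (N ≃ₐ[K] N) := Nat.card_pos
    refine ⟨w, B, h1, fun n => ?_, fun Q hQ => ?_⟩
    · have h4 := (abs_le.1 (h2 n)).1
      have h5 : (2 * g + 1 : ℝ)⁻¹ ≤ (𝒞.card : ℝ) / (Nat.card (N ≃ₐ[K] N) : ℝ) := by
        rw [inv_le_iff_one_le_mul₀ (by positivity), div_mul_eq_mul_div, one_le_div (by positivity)]
        have : ((Nat.card (N ≃ₐ[K] N) : ℕ) : ℝ) ≤ (((2 * g + 1) * 𝒞.card : ℕ) : ℝ) := by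
          exact_mod_cast hcard
        push_cast at this
        linarith
      have h6 := mul_le_mul_of_nonneg_right h5 (Nat.cast_nonneg (α := ℝ) n)
      linarith
    · obtain ⟨a1, a2, a3, τ, hτ𝒞, a, v, a4, a5, a6⟩ := h3 Q hQ
      refine ⟨a1, a2, hM τ hτ𝒞 Q a v a2 ?_ a4 a5 a6, fun P hP => ?_⟩
      · exact lt_of_le_of_lt ((Finset.le_sup (f := M) hτ𝒞).trans (le_max_left _ _)) a3
      · exact (ndvd hT' a1 a2 (lt_of_le_of_lt (le_max_right _ _) a3) P hP).2
  -- the primes which are squares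
  obtain ⟨w₁, β, B₁, hβ, hw₁, hMS₁, hwQ₁⟩ : ∃ (w₁ : k[X] → ℝ) (β B : ℝ), 0 < β ∧
      (∀ Q, 0 ≤ w₁ Q ∧ w₁ Q ≤ 1) ∧ (∀ n : ℕ, |MS w₁ n - β * n| ≤ B) ∧
      (∀ Q, w₁ Q ≠ 0 → Q.Monic ∧ Irreducible Q ∧ Even Q.natDegree ∧
      Irreducible (f.map (Ideal.Quotient.mk (Ideal.span {Q}))) ∧
      ∀ P ∈ T, ¬ P ∣ Q ∧ ∃ z : k[X], P ∣ Q - z ^ 2) := by
    have h2 := hyp.two
    obtain ⟨a, ha⟩ : ∃ a : k, ¬ IsSquare a := by
      haveI : Fintype k := Fintype.ofFinite k
      refine FiniteField.exists_nonsquare ?_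
      intro h
      apply h2
      have := (ringChar.spec k 2).2 (by rw [h])
      exact_mod_cast this
    have ha0 : a ≠ 0 := by
      rintro rfl
      exact ha (IsSquare.zero)
    have hunrK : UnrAt K P₀ := fun w hw => (MainE.split_base (K := K) hyp.prime w hw).1
    obtain ⟨E, iF, iA, iX, iT, iFD, iG, -, hu, hsq⟩ := cyc k K K P₀ (insert (C a) T) h2 hyp.prime
      hunrK (by
        intro P hP
        rcases Finset.mem_insert.1 hP with rfl | hP
        · intro hd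
          exact hyp.prime.not_isUnit (isUnit_of_dvd_unit hd (isUnit_C.2 ha0.isUnit))
        · exact (hT P hP).2.2)
    obtain ⟨N, jF, jA, jFD, jG, σ, x, κ, hκ, hf, hσ2⟩ := galn odd g k K E f P₀ hyp hu
    letI jX : Algebra k[X] N := ((algebraMap K N).comp (algebraMap k[X] K)).toAlgebra
    haveI jS : IsScalarTower k[X] K N := IsScalarTower.of_algebraMap_eq' rfl
    obtain ⟨M₁, hM₁⟩ := ResA.splits_part (k := k) κ σ hκ
    obtain ⟨M₂, hM₂⟩ := DelA.core (k := k) g f P₀ hyp σ x hf hσ2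
    obtain ⟨w, B, b1, b2, b3⟩ := hD k K N {σ} (orderOf σ)
      (max (∑ P ∈ T, P.natDegree) (max M₁ M₂)) fun τ h => by rw [Finset.mem_singleton.1 h]
    have hG : 0 < Nat.card (N ≃ₐ[K] N) := Nat.card_pos
    refine ⟨w, _, B, ?_, b1, b2, fun Q hQ => ?_⟩
    · rw [Finset.card_singleton]
      positivity
    · obtain ⟨a1, a2, a3, τ, hτ𝒞, a', v, a4, a5, a6⟩ := b3 Q hQ
      have e := Finset.mem_singleton.1 hτ𝒞
      subst e
      have hQs : SplitsIn E Q := hM₁ Q a' v a2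
        (lt_of_le_of_lt ((le_max_left _ _).trans (le_max_right _ _)) a3) a4 a6
      have hQf := hM₂ Q a' v a2
        (lt_of_le_of_lt ((le_max_right _ _).trans (le_max_right _ _)) a3) a4 a5 a6
      obtain ⟨-, hspl⟩ := t_SPL k K E Q a2 hQs
      obtain ⟨hqr1, hqr2⟩ := t_QR k h2 Q a1 a2
      have hev : Even Q.natDegree := hqr2 a ha (hspl _ (hsq _ (Finset.mem_insert_self _ _)))
      refine ⟨a1, a2, hev, hQf, fun P hP => ?_⟩
      obtain ⟨c1, c2⟩ := ndvd hT' a1 a2 (lt_of_le_of_lt (le_max_left _ _) a3) P hP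
      exact ⟨c2, hqr1 P (hT P hP).1 (hT P hP).2.1 c1 hev
        (hspl _ (hsq _ (Finset.mem_insert_of_mem hP)))⟩
  refine ⟨w, w₁, β, max B B₁, hβ, hw, hw₁, fun n => ?_, fun n => ?_, hwQ, hwQ₁⟩
  · exact (sub_le_sub_left (le_max_left _ _) _).trans (hMS n)
  · exact (hMS₁ n).trans (le_max_right _ _)

end Pool.Agent.Helper28H.QT
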