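import Pool.Agent.Helper28H.QT.Stm

/-!
# Project QT, piece CNA: counting products of primes

`Abs.main` is the abstract form: a set `T` of primes with degrees `d`, `A(n) = ∑_J q ^ (- deg J)` over the finite
subsets `J` of `T` with `deg J ≤ n`.
-/

set_option autoImplicit false

open Polynomial

namespace Pool.Agent.Helper28H.QT

namespace Cna

section abs

variable {ι : Type} {T : Set ι} {d : ι → ℕ} {P : ℕ → Finset ι}
  {F : ℕ → Finset (Finset ι)}

/-- a pair of a set and one of its elements is a pair of a set and an element outside -/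
theorem swap [DecidableEq ι] (hP : ∀ n Q, Q ∈ P n ↔ Q ∈ T ∧ d Q ≤ n)
    (hF : ∀ n J, J ∈ F n ↔ (∀ Q ∈ J, Q ∈ T) ∧ ∑ Q ∈ J, d Q ≤ n) (n : ℕ) (φ : Finset ι → ι → ℝ) :
    ∑ J ∈ F n, ∑ Q ∈ J, φ (J.erase Q) Q =
      ∑ J ∈ F n, ∑ Q ∈ (P n).filter (fun Q => Q ∉ J ∧ (∑ R ∈ J, d R) + d Q ≤ n), φ J Q := by
  rw [Finset.sum_sigma', Finset.sum_sigma']
  refine Finset.sum_bij' (fun x _ => ⟨x.1.erase x.2, x.2⟩) (fun x _ => ⟨insert x.2 x.1, x.2⟩)
    ?_ ?_ ?_ ?_ ?_
  · rintro ⟨J, Q⟩ h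
    simp only [Finset.mem_sigma] at h
    obtain ⟨h1, h2⟩ := h
    rw [hF] at h1
    have h3 : (∑ R ∈ J.erase Q, d R) + d Q = ∑ R ∈ J, d R := Finset.sum_erase_add _ _ h2
    simp only [Finset.mem_sigma, Finset.mem_filter, hF, hP]
    refine ⟨⟨fun R hR => h1.1 R (Finset.mem_of_mem_erase hR), by omega⟩, ⟨h1.1 Q h2, by omega⟩,
      Finset.notMem_erase _ _, by omega⟩
  · rintro ⟨J, Q⟩ h
    simp only [Finset.mem_sigma, Finset.mem_filter, hF, hP] at h
    obtain ⟨⟨h1, h2⟩, ⟨h3, h4⟩, h5, h6⟩ := h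
    simp only [Finset.mem_sigma, hF]
    refine ⟨⟨fun R hR => ?_, ?_⟩, Finset.mem_insert_self _ _⟩
    · rcases Finset.mem_insert.1 hR with h | h
      · rw [h]; exact h3
      · exact h1 R h
    · rw [Finset.sum_insert h5]; omega
  · rintro ⟨J, Q⟩ h
    simp only [Finset.mem_sigma] at h
    simp only [Finset.insert_erase h.2]
  · rintro ⟨J, Q⟩ h
    simp only [Finset.mem_sigma, Finset.mem_filter] at h
    simp only [Finset.erase_insert h.2.2.1]
  · rintro ⟨J, Q⟩ _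
    rfl

/-- the sum of the `A (m)`, `m < n` -/
theorem sumA (hF : ∀ n J, J ∈ F n ↔ (∀ Q ∈ J, Q ∈ T) ∧ ∑ Q ∈ J, d Q ≤ n) (x : Finset ι → ℝ) (n : ℕ) :
    ∑ m ∈ Finset.range n, ∑ J ∈ F m, x J = ∑ J ∈ F n, ((n : ℝ) - ((∑ Q ∈ J, d Q : ℕ) : ℝ)) * x J := by
  induction n with
  | zero =>
    rw [Finset.range_zero, Finset.sum_empty]
    symm
    apply Finset.sum_eq_zero
    intro J hJ
    rw [hF] at hJ
    have : ∑ Q ∈ J, d Q = 0 := by omega
    rw [this]; simp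
  | succ n ih =>
    rw [Finset.sum_range_succ, ih, ← Finset.sum_add_distrib]
    have hsub : F n ⊆ F (n + 1) := by
      intro J hJ
      rw [hF] at hJ ⊢
      exact ⟨hJ.1, by omega⟩
    rw [← Finset.sum_subset hsub]
    · refine Finset.sum_congr rfl fun J _ => ?_
      push_cast
      ring
    · intro J hJ hJ'
      rw [hF] at hJ hJ'
      have : ∑ Q ∈ J, d Q = n + 1 := by
        by_contra hne
        exact hJ' ⟨hJ.1, by omega⟩
      rw [this]; simp

theorem step [DecidableEq ι] (hP : ∀ n Q, Q ∈ P n ↔ Q ∈ T ∧ d Q ≤ n)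
    (hF : ∀ n J, J ∈ F n ↔ (∀ Q ∈ J, Q ∈ T) ∧ ∑ Q ∈ J, d Q ≤ n) {q α B : ℝ} (hq : 1 < q)
    (h1 : ∀ n : ℕ, α * n - B ≤ ∑ Q ∈ P n, (d Q : ℝ) / q ^ d Q)
    (h2 : ∀ n : ℕ, ∑ Q ∈ P n, (d Q : ℝ) / q ^ d Q * (q ^ d Q)⁻¹ ≤ 2) (n : ℕ) :
    (1 + α) * (∑ m ∈ Finset.range n, ∑ J ∈ F m, (q ^ (∑ Q ∈ J, d Q))⁻¹) ≤
      (n + (B + 2)) * ∑ J ∈ F n, (q ^ (∑ Q ∈ J, d Q))⁻¹ := by
  have hq0 : 0 < q := by linarith
  rw [sumA hF]
  -- the sum of the degrees
  have e1 : ∑ J ∈ F n, ((∑ Q ∈ J, d Q : ℕ) : ℝ) * (q ^ (∑ Q ∈ J, d Q))⁻¹ =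
      ∑ J ∈ F n, ∑ Q ∈ J, (fun (J' : Finset ι) (Q : ι) =>
        (d Q : ℝ) / q ^ d Q * (q ^ (∑ R ∈ J', d R))⁻¹) (J.erase Q) Q := by
    refine Finset.sum_congr rfl fun J _ => ?_
    push_cast
    rw [Finset.sum_mul]
    refine Finset.sum_congr rfl fun Q hQ => ?_
    have h3 : (∑ R ∈ J.erase Q, d R) + d Q = ∑ R ∈ J, d R := Finset.sum_erase_add _ _ hQ
    rw [← h3, pow_add]
    field_simp
  have e2 := swap hP hF n (fun (J' : Finset ι) (Q : ι) =>
        (d Q : ℝ) / q ^ d Q * (q ^ (∑ R ∈ J', d R))⁻¹)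
  -- the correction term
  have e3 : ∑ J ∈ F n, (q ^ (∑ Q ∈ J, d Q))⁻¹ * ∑ Q ∈ J, (d Q : ℝ) / q ^ d Q =
      ∑ J ∈ F n, ∑ Q ∈ J, (fun (J' : Finset ι) (Q : ι) =>
        ((d Q : ℝ) / q ^ d Q * (q ^ d Q)⁻¹) * (q ^ (∑ R ∈ J', d R))⁻¹) (J.erase Q) Q := by
    refine Finset.sum_congr rfl fun J _ => ?_
    rw [Finset.mul_sum]
    refine Finset.sum_congr rfl fun Q hQ => ?_
    have h3 : (∑ R ∈ J.erase Q, d R) + d Q = ∑ R ∈ J, d R := Finset.sum_erase_add _ _ hQ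
    rw [← h3, pow_add]
    field_simp
  have e4 := swap hP hF n (fun (J' : Finset ι) (Q : ι) =>
        ((d Q : ℝ) / q ^ d Q * (q ^ d Q)⁻¹) * (q ^ (∑ R ∈ J', d R))⁻¹)
  have e5 : ∑ J ∈ F n, (q ^ (∑ Q ∈ J, d Q))⁻¹ * ∑ Q ∈ J, (d Q : ℝ) / q ^ d Q ≤
      2 * ∑ J ∈ F n, (q ^ (∑ Q ∈ J, d Q))⁻¹ := by
    rw [e3, e4, Finset.mul_sum]
    refine Finset.sum_le_sum fun J _ => ?_
    rw [← Finset.sum_mul]
    refine mul_le_mul_of_nonneg_right ?_ (by positivity)
    refine le_trans ?_ (h2 n)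
    exact Finset.sum_le_sum_of_subset_of_nonneg (Finset.filter_subset _ _) fun _ _ _ => by positivity
  have e6 : ∀ J ∈ F n, (α * ((n : ℝ) - ((∑ Q ∈ J, d Q : ℕ) : ℝ)) - B - ∑ Q ∈ J, (d Q : ℝ) / q ^ d Q) *
      (q ^ (∑ Q ∈ J, d Q))⁻¹ ≤
      ∑ Q ∈ (P n).filter (fun Q => Q ∉ J ∧ (∑ R ∈ J, d R) + d Q ≤ n),
        (d Q : ℝ) / q ^ d Q * (q ^ (∑ R ∈ J, d R))⁻¹ := by
    intro J hJ
    rw [← Finset.sum_mul]
    refine mul_le_mul_of_nonneg_right ?_ (by positivity)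
    rw [hF] at hJ
    have h3 := h1 (n - ∑ Q ∈ J, d Q)
    rw [Nat.cast_sub hJ.2] at h3
    have h4 : ∑ Q ∈ P (n - ∑ Q ∈ J, d Q), (d Q : ℝ) / q ^ d Q ≤
        ∑ Q ∈ (P n).filter (fun Q => Q ∉ J ∧ (∑ R ∈ J, d R) + d Q ≤ n), (d Q : ℝ) / q ^ d Q +
        ∑ Q ∈ J, (d Q : ℝ) / q ^ d Q := by
      rw [← Finset.sum_filter_add_sum_filter_not (P (n - ∑ Q ∈ J, d Q)) (fun Q => Q ∉ J)]
      refine add_le_add ?_ ?_
      · refine Finset.sum_le_sum_of_subset_of_nonneg ?_ fun _ _ _ => by positivity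
        intro Q hQ
        simp only [Finset.mem_filter, hP] at hQ ⊢
        refine ⟨⟨hQ.1.1, ?_⟩, hQ.2, ?_⟩
        · have := hQ.1.2; omega
        · have := hQ.1.2
          have := hJ.2
          omega
      · refine Finset.sum_le_sum_of_subset_of_nonneg ?_ fun _ _ _ => by positivity
        intro Q hQ
        simp only [Finset.mem_filter, not_not] at hQ
        exact hQ.2
    linarith
  have e7 := Finset.sum_le_sum e6
  have e8 : ∑ J ∈ F n, (α * ((n : ℝ) - ((∑ Q ∈ J, d Q : ℕ) : ℝ)) - B - ∑ Q ∈ J, (d Q : ℝ) / q ^ d Q) *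
      (q ^ (∑ Q ∈ J, d Q))⁻¹ =
      α * (∑ J ∈ F n, ((n : ℝ) - ((∑ Q ∈ J, d Q : ℕ) : ℝ)) * (q ^ (∑ Q ∈ J, d Q))⁻¹) -
        B * (∑ J ∈ F n, (q ^ (∑ Q ∈ J, d Q))⁻¹) -
        ∑ J ∈ F n, (q ^ (∑ Q ∈ J, d Q))⁻¹ * ∑ Q ∈ J, (d Q : ℝ) / q ^ d Q := by
    rw [Finset.mul_sum, Finset.mul_sum, ← Finset.sum_sub_distrib, ← Finset.sum_sub_distrib]
    refine Finset.sum_congr rfl fun J _ => ?_
    ring
  have e9 : (n : ℝ) * (∑ J ∈ F n, (q ^ (∑ Q ∈ J, d Q))⁻¹) -
      ∑ J ∈ F n, ((n : ℝ) - ((∑ Q ∈ J, d Q : ℕ) : ℝ)) * (q ^ (∑ Q ∈ J, d Q))⁻¹ =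
      ∑ J ∈ F n, ((∑ Q ∈ J, d Q : ℕ) : ℝ) * (q ^ (∑ Q ∈ J, d Q))⁻¹ := by
    rw [Finset.mul_sum, ← Finset.sum_sub_distrib]
    refine Finset.sum_congr rfl fun J _ => ?_
    ring
  rw [e8] at e7
  rw [← e2] at e7
  rw [← e1, ← e9] at e7
  linarith

/-- the growth of the solutions of the recursion -/
theorem growth {A : ℕ → ℝ} {α b : ℝ} (hα : 0 < α) (hb : 0 < b) (h0 : 1 ≤ A 0)
    (h : ∀ n : ℕ, (1 + α) * ∑ m ∈ Finset.range n, A m ≤ (n + b) * A n) :
    ∃ c : ℝ, 0 < c ∧ ∀ n : ℕ, 1 ≤ n → c * (n : ℝ) ^ α ≤ A n := by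
  set p : ℝ := 1 + α with hp
  have hp0 : 0 < p := by positivity
  have key : ∀ n : ℕ, (1 + b + p) ^ (-p) * ((n + 1 : ℕ) + b + p) ^ p ≤
      ∑ m ∈ Finset.range (n + 1), A m := by
    intro n
    induction n with
    | zero =>
      rw [Finset.sum_range_one]
      refine le_trans (le_of_eq ?_) h0
      rw [Real.rpow_neg (by positivity)]
      simp only [zero_add, Nat.cast_one]
      exact inv_mul_cancel₀ (by positivity)
    | succ n ih =>
      rw [Finset.sum_range_succ]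
      set I := ∑ m ∈ Finset.range (n + 1), A m
      have h1 := h (n + 1)
      have hx : (0 : ℝ) < ((n + 1 : ℕ) : ℝ) + b := by positivity
      set x : ℝ := ((n + 1 : ℕ) : ℝ) + b with hxd
      have h2 : p / x * I ≤ A (n + 1) := by
        rw [div_mul_eq_mul_div, div_le_iff₀ hx]
        calc p * I ≤ x * A (n + 1) := h1
          _ = A (n + 1) * x := by ring
      have hI : 0 < I := lt_of_lt_of_le (by positivity) ih
      have h3 : ((n + 1 + 1 : ℕ) + b + p : ℝ) ^ p ≤ (1 + p / x) * (x + p) ^ p := by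
        have e1 : ((n + 1 + 1 : ℕ) + b + p : ℝ) = (1 + 1 / (x + p)) * (x + p) := by
          have : x + p ≠ 0 := by positivity
          field_simp
          rw [hxd]; push_cast; ring
        rw [e1, Real.mul_rpow (by positivity) (by positivity)]
        refine mul_le_mul_of_nonneg_right ?_ (by positivity)
        have e2 : (1 + 1 / (x + p)) ^ p ≤ Real.exp (p / (x + p)) := by
          have : 1 + 1 / (x + p) ≤ Real.exp (1 / (x + p)) := by
            have := Real.add_one_le_exp (1 / (x + p)); linarith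
          calc (1 + 1 / (x + p)) ^ p ≤ (Real.exp (1 / (x + p))) ^ p :=
                Real.rpow_le_rpow (by positivity) this hp0.le
            _ = Real.exp (p / (x + p)) := by
                rw [← Real.exp_mul]; congr 1; ring
        have e3 : Real.exp (p / (x + p)) ≤ 1 + p / x := by
          have h5 : 1 - p / (x + p) ≤ Real.exp (-(p / (x + p))) := by
            have := Real.add_one_le_exp (-(p / (x + p))); linarith
          have h6 : 1 - p / (x + p) = x / (x + p) := by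
            have : x + p ≠ 0 := by positivity
            field_simp; ring
          rw [h6, Real.exp_neg] at h5
          have h7 : 0 < Real.exp (p / (x + p)) := Real.exp_pos _
          have h8 : Real.exp (p / (x + p)) * (x / (x + p)) ≤ 1 := by
            calc Real.exp (p / (x + p)) * (x / (x + p)) ≤
                  Real.exp (p / (x + p)) * (Real.exp (p / (x + p)))⁻¹ :=
                  mul_le_mul_of_nonneg_left h5 h7.le
              _ = 1 := mul_inv_cancel₀ h7.ne'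
          have h9 : (1 + p / x) * (x / (x + p)) = 1 := by
            have : x + p ≠ 0 := by positivity
            field_simp
          have h10 : 0 < x / (x + p) := by positivity
          have := le_of_mul_le_mul_right (h8.trans h9.ge) h10
          exact this
        exact e2.trans e3
      calc (1 + b + p) ^ (-p) * ((n + 1 + 1 : ℕ) + b + p) ^ p
          ≤ (1 + b + p) ^ (-p) * ((1 + p / x) * (x + p) ^ p) :=
            mul_le_mul_of_nonneg_left h3 (by positivity)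
        _ = (1 + p / x) * ((1 + b + p) ^ (-p) * (x + p) ^ p) := by ring
        _ ≤ (1 + p / x) * I := mul_le_mul_of_nonneg_left ih (by positivity)
        _ = I + p / x * I := by ring
        _ ≤ I + A (n + 1) := by linarith
  refine ⟨p * (1 + b + p) ^ (-p), by positivity, ?_⟩
  intro n hn
  obtain ⟨m, rfl⟩ := Nat.exists_eq_succ_of_ne_zero (by omega : n ≠ 0)
  have h1 := h (m + 1)
  have h2 := key m
  have hx : (0 : ℝ) < ((m + 1 : ℕ) : ℝ) + b := by positivity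
  set x : ℝ := ((m + 1 : ℕ) : ℝ) + b with hxd
  have h3 : p * ((1 + b + p) ^ (-p) * (x + p) ^ p) ≤ x * A (m + 1) :=
    (mul_le_mul_of_nonneg_left h2 hp0.le).trans h1
  have h4 : ((m + 1 : ℕ) : ℝ) ^ α ≤ (x + p) ^ α := by
    refine Real.rpow_le_rpow (by positivity) ?_ hα.le
    rw [hxd]; linarith
  have h5 : (x + p) ^ p = (x + p) * (x + p) ^ α := by
    rw [hp, Real.rpow_add (by positivity), Real.rpow_one]
  have h6 : x * (p * (1 + b + p) ^ (-p) * (x + p) ^ α) ≤ x * A (m + 1) := by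
    refine le_trans ?_ h3
    rw [h5]
    have h7 : x * (p * (1 + b + p) ^ (-p) * (x + p) ^ α) =
      p * ((1 + b + p) ^ (-p) * (x * (x + p) ^ α)) := by ring
    rw [h7]
    refine mul_le_mul_of_nonneg_left (mul_le_mul_of_nonneg_left
      (mul_le_mul_of_nonneg_right (by linarith) (by positivity)) (by positivity)) hp0.le
  have h7 := le_of_mul_le_mul_left h6 hx
  exact (mul_le_mul_of_nonneg_left h4 (by positivity)).trans h7

end abs

section pol

variable {k : Type} [Field k] [Finite k]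

theorem finite_le (n : ℕ) : {Q : k[X] | Q.natDegree ≤ n}.Finite := by
  have : Function.Injective (fun Q : {Q : k[X] | Q.natDegree ≤ n} =>
      fun i : Fin (n + 1) => (Q : k[X]).coeff i) := by
    rintro ⟨Q, hQ⟩ ⟨R, hR⟩ h
    apply Subtype.ext
    ext i
    by_cases hi : i < n + 1
    · exact congrFun h ⟨i, hi⟩
    · have h1 : Q.natDegree < i := lt_of_le_of_lt hQ (by omega)
      have h2 : R.natDegree < i := lt_of_le_of_lt hR (by omega)
      simp only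
      rw [coeff_eq_zero_of_natDegree_lt h1, coeff_eq_zero_of_natDegree_lt h2]
  exact Set.finite_coe_iff.1 (Finite.of_injective _ this)

/-- there are at most `q ^ m` monic polynomials of degree `m` -/
theorem card_monic (m : ℕ) (A : Finset k[X]) (h : ∀ Q ∈ A, Q.Monic ∧ Q.natDegree = m) :
    (A.card : ℝ) ≤ (Nat.card k : ℝ) ^ m := by
  classical
  have := Fintype.ofFinite k
  have h1 : A.card ≤ (Finset.univ : Finset (Fin m → k)).card := by
    refine Finset.card_le_card_of_injOn (fun Q i => Q.coeff i) (fun _ _ => Finset.mem_coe.2 (Finset.mem_univ _)) ?_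
    intro Q hQ R hR hQR
    obtain ⟨hQ1, hQ2⟩ := h Q hQ
    obtain ⟨hR1, hR2⟩ := h R hR
    ext i
    rcases lt_trichotomy i m with hi | hi | hi
    · exact congrFun hQR ⟨i, hi⟩
    · subst hi
      have e1 : Q.coeff Q.natDegree = 1 := hQ1
      have e2 : R.coeff R.natDegree = 1 := hR1
      rw [hQ2] at e1
      rw [hR2] at e2
      rw [e1, e2]
    · rw [coeff_eq_zero_of_natDegree_lt (by omega), coeff_eq_zero_of_natDegree_lt (by omega)]
  rw [Finset.card_univ, Fintype.card_fun, Fintype.card_fin, ← Nat.card_eq_fintype_card] at h1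
  exact_mod_cast h1

theorem two_le : (2 : ℝ) ≤ (Nat.card k : ℝ) := by
  have : 1 < Nat.card k := Finite.one_lt_card
  exact_mod_cast this

theorem sum_half (n : ℕ) : ∑ m ∈ Finset.range n, (m : ℝ) * (1 / 2) ^ m =
    2 - 2 * (n + 1) * (1 / 2) ^ n := by
  induction n with
  | zero => simp
  | succ n ih =>
    rw [Finset.sum_range_succ, ih]
    push_cast
    ring

theorem sum_two (n : ℕ) (A : Finset k[X]) (h : ∀ Q ∈ A, Q.Monic ∧ Q.natDegree ≤ n) :
    ∑ Q ∈ A, (Q.natDegree : ℝ) / (Nat.card k : ℝ) ^ Q.natDegree *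
      ((Nat.card k : ℝ) ^ Q.natDegree)⁻¹ ≤ 2 := by
  classical
  have hq := two_le (k := k)
  rw [← Finset.sum_fiberwise_of_maps_to (s := A) (t := Finset.range (n + 1)) (g := fun Q => Q.natDegree)
    (fun Q hQ => by rw [Finset.mem_range]; have := (h Q hQ).2; omega)]
  have h1 : ∀ m ∈ Finset.range (n + 1), ∑ Q ∈ A with Q.natDegree = m,
      (Q.natDegree : ℝ) / (Nat.card k : ℝ) ^ Q.natDegree * ((Nat.card k : ℝ) ^ Q.natDegree)⁻¹ ≤
      (m : ℝ) * (1 / 2) ^ m := by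
    intro m _
    have h2 : ∑ Q ∈ A with Q.natDegree = m,
      (Q.natDegree : ℝ) / (Nat.card k : ℝ) ^ Q.natDegree * ((Nat.card k : ℝ) ^ Q.natDegree)⁻¹ =
      ∑ Q ∈ A with Q.natDegree = m,
        ((m : ℝ) / (Nat.card k : ℝ) ^ m * ((Nat.card k : ℝ) ^ m)⁻¹) := by
      refine Finset.sum_congr rfl fun Q hQ => ?_
      rw [(Finset.mem_filter.1 hQ).2]
    rw [h2, Finset.sum_const, nsmul_eq_mul]
    have h3 := card_monic m (A.filter fun Q => Q.natDegree = m) (fun Q hQ =>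
      ⟨(h Q (Finset.mem_filter.1 hQ).1).1, (Finset.mem_filter.1 hQ).2⟩)
    have hqm : (0 : ℝ) < (Nat.card k : ℝ) ^ m := by positivity
    calc ((A.filter fun Q => Q.natDegree = m).card : ℝ) *
          ((m : ℝ) / (Nat.card k : ℝ) ^ m * ((Nat.card k : ℝ) ^ m)⁻¹)
        ≤ (Nat.card k : ℝ) ^ m * ((m : ℝ) / (Nat.card k : ℝ) ^ m * ((Nat.card k : ℝ) ^ m)⁻¹) :=
          mul_le_mul_of_nonneg_right h3 (by positivity)
      _ = (m : ℝ) * (1 / (Nat.card k : ℝ)) ^ m := by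
          rw [one_div, inv_pow]
          field_simp
      _ ≤ (m : ℝ) * (1 / 2) ^ m := by
          refine mul_le_mul_of_nonneg_left ?_ (by positivity)
          refine pow_le_pow_left₀ (by positivity) ?_ m
          exact one_div_le_one_div_of_le (by norm_num) hq
  refine (Finset.sum_le_sum h1).trans ?_
  rw [sum_half]
  have : (0 : ℝ) ≤ 2 * ((n + 1 : ℕ) + 1) * (1 / 2) ^ (n + 1) := by positivity
  linarith

end pol

end Cna

open Cna in
/-- **CNA** -/
theorem t_CNA : S_CNA := by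
  intro k _ _ S α B hα hB
  classical
  have hfP : ∀ n : ℕ, {Q : k[X] | Q.Monic ∧ Irreducible Q ∧ Q.natDegree ≤ n ∧ Q ∈ S}.Finite :=
    fun n => (finite_le n).subset fun Q hQ => hQ.2.2.1
  have hfF : ∀ n : ℕ, (Fam S n).Finite := by
    intro n
    refine (Finset.finite_toSet (hfP n).toFinset.powerset).subset ?_
    rintro J ⟨h1, h2⟩
    rw [Finset.mem_coe, Finset.mem_powerset]
    intro Q hQ
    rw [Set.Finite.mem_toFinset]
    exact ⟨(h1 Q hQ).1, (h1 Q hQ).2.1,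
      (Finset.single_le_sum (f := fun Q : k[X] => Q.natDegree) (fun _ _ => Nat.zero_le _) hQ).trans h2,
      (h1 Q hQ).2.2⟩
  have hP : ∀ (n : ℕ) (Q : k[X]), Q ∈ (hfP n).toFinset ↔
      Q ∈ {Q : k[X] | Q.Monic ∧ Irreducible Q ∧ Q ∈ S} ∧ Q.natDegree ≤ n := by
    intro n Q
    rw [Set.Finite.mem_toFinset]
    simp only [Set.mem_ofPred_eq]
    tauto
  have hF : ∀ (n : ℕ) (J : Finset k[X]), J ∈ (hfF n).toFinset ↔
      (∀ Q ∈ J, Q ∈ {Q : k[X] | Q.Monic ∧ Irreducible Q ∧ Q ∈ S}) ∧ ∑ Q ∈ J, Q.natDegree ≤ n := by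
    intro n J
    rw [Set.Finite.mem_toFinset]
    rfl
  have hq := two_le (k := k)
  have h1 : ∀ n : ℕ, α * n - max B 0 ≤
      ∑ Q ∈ (hfP n).toFinset, (Q.natDegree : ℝ) / (Nat.card k : ℝ) ^ Q.natDegree := by
    intro n
    rw [← finsum_mem_eq_finite_toFinset_sum]
    have := hB n
    have := le_max_left B 0
    linarith
  have h2 : ∀ n : ℕ, ∑ Q ∈ (hfP n).toFinset, (Q.natDegree : ℝ) / (Nat.card k : ℝ) ^ Q.natDegree *
      ((Nat.card k : ℝ) ^ Q.natDegree)⁻¹ ≤ 2 := by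
    intro n
    refine sum_two n _ fun Q hQ => ?_
    rw [Set.Finite.mem_toFinset] at hQ
    exact ⟨hQ.1, hQ.2.2.1⟩
  have h3 := step hP hF (by linarith : (1 : ℝ) < Nat.card k) h1 h2
  have h0 : 1 ≤ ∑ J ∈ (hfF 0).toFinset, ((Nat.card k : ℝ) ^ (∑ Q ∈ J, Q.natDegree))⁻¹ := by
    have h4 : ∅ ∈ (hfF 0).toFinset := by
      rw [hF]; simp
    refine le_trans (le_of_eq ?_) (Finset.single_le_sum
      (f := fun J : Finset k[X] => ((Nat.card k : ℝ) ^ (∑ Q ∈ J, Q.natDegree))⁻¹)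
      (fun _ _ => by positivity) h4)
    simp
  obtain ⟨c, hc, h⟩ := growth (A := fun n => ∑ J ∈ (hfF n).toFinset,
    ((Nat.card k : ℝ) ^ (∑ Q ∈ J, Q.natDegree))⁻¹) hα
    (by have := le_max_right B 0; linarith : (0 : ℝ) < max B 0 + 2) h0 h3
  refine ⟨c, hc, fun n hn => ?_⟩
  rw [finsum_mem_eq_finite_toFinset_sum _ (hfF n)]
  exact h n hn

end Pool.Agent.Helper28H.QT
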