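import Pool.Agent.Helper28H.QT.Stm

/-! # Project QT (helper28): piece CNI (helper32) -/

set_option autoImplicit false

open Polynomial IsDedekindDomain

namespace Pool.Agent.Helper28H.QT

namespace CNIp

variable {k : Type} [Field k] [Finite k]

theorem fin_deg (n : ℕ) : {Q : k[X] | Q.natDegree ≤ n}.Finite := by
  have h1 : Module.Finite k (degreeLT k (n + 1)) :=
    Module.Finite.equiv (degreeLTEquiv k (n + 1)).symm
  have h2 : Finite (degreeLT k (n + 1)) := Module.finite_of_finite k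
  refine Set.Finite.subset (Set.toFinite (degreeLT k (n + 1) : Set k[X])) ?_
  intro Q hQ
  rw [SetLike.mem_coe, Polynomial.mem_degreeLT]
  refine lt_of_le_of_lt Polynomial.degree_le_natDegree ?_
  exact_mod_cast Nat.lt_succ_of_le hQ

theorem fin_J (n : ℕ) : {J : Finset k[X] | ∑ Q ∈ J, Q.natDegree ≤ n}.Finite := by
  classical
  refine Set.Finite.subset ((fin_deg (k := k) n).toFinset.powerset.finite_toSet) ?_
  intro J hJ
  rw [Finset.mem_coe, Finset.mem_powerset]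
  intro Q hQ
  rw [Set.Finite.mem_toFinset]
  exact le_trans (Finset.single_le_sum (f := fun Q : k[X] => Q.natDegree)
    (fun _ _ => Nat.zero_le _) hQ) hJ

end CNIp

open CNIp in
open Classical in
theorem t_CNI (hA : S_CNA) (hW : S_CNW) : S_CNI := by
  intro k _ _ w w₁ α β B hα hβ hw hw₁ hMS hMS₁ Γ _ _ hΓ κ hκ
  letI : Fintype Γ := Fintype.ofFinite Γ
  have hq1 : (1 : ℝ) < (Nat.card k : ℝ) := by
    exact_mod_cast Finite.one_lt_card
  obtain ⟨q, hq⟩ : ∃ q : ℝ, q = (Nat.card k : ℝ) := ⟨_, rfl⟩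
  rw [← hq] at hq1
  have hq0 : 0 < q := by linarith
  -- representatives
  obtain ⟨R, hR1, hR2⟩ : ∃ R : Γ → Finset k[X],
      (∀ γ, ∀ Q ∈ R γ, Q.Monic ∧ Irreducible Q ∧ w Q ≠ 0) ∧
      ∀ J : Finset k[X], (∀ Q ∈ J, Q.Monic ∧ Irreducible Q ∧ w Q ≠ 0) →
        ∑ Q ∈ R (∑ Q ∈ J, κ Q), κ Q = ∑ Q ∈ J, κ Q := by
    have h1 : ∀ γ : Γ, ∃ R : Finset k[X], (∀ Q ∈ R, Q.Monic ∧ Irreducible Q ∧ w Q ≠ 0) ∧
        ((∃ J : Finset k[X], (∀ Q ∈ J, Q.Monic ∧ Irreducible Q ∧ w Q ≠ 0) ∧ ∑ Q ∈ J, κ Q = γ) →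
          ∑ Q ∈ R, κ Q = γ) := by
      intro γ
      by_cases h : ∃ J : Finset k[X],
          (∀ Q ∈ J, Q.Monic ∧ Irreducible Q ∧ w Q ≠ 0) ∧ ∑ Q ∈ J, κ Q = γ
      · obtain ⟨J, hJ, h2⟩ := h
        exact ⟨J, hJ, fun _ => h2⟩
      · exact ⟨∅, by simp, fun h2 => absurd h2 h⟩
    choose R hR1 hR2 using h1
    exact ⟨R, hR1, fun J hJ => hR2 _ ⟨J, hJ, rfl⟩⟩
  obtain ⟨Ru, hRsub⟩ : ∃ Ru : Finset k[X], ∀ γ, R γ ⊆ Ru :=
    ⟨Finset.univ.biUnion R, fun γ => Finset.subset_biUnion_of_mem R (Finset.mem_univ γ)⟩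
  obtain ⟨r, hr⟩ : ∃ r : ℕ, r = ∑ Q ∈ Ru, Q.natDegree := ⟨_, rfl⟩
  have hRdeg : ∀ γ, ∑ Q ∈ R γ, Q.natDegree ≤ r := fun γ => by
    rw [hr]; exact Finset.sum_le_sum_of_subset (hRsub γ)
  obtain ⟨S, hS⟩ : ∃ S : Set k[X], S = {Q | w Q ≠ 0 ∧ Q ∉ Ru} := ⟨_, rfl⟩
  have hSlow : ∀ n : ℕ, α * n - (B + ∑ Q ∈ Ru, (Q.natDegree : ℝ) / (Nat.card k : ℝ) ^ Q.natDegree) ≤
      ∑ᶠ Q ∈ {Q : k[X] | Q.Monic ∧ Irreducible Q ∧ Q.natDegree ≤ n ∧ Q ∈ S},
        (Q.natDegree : ℝ) / (Nat.card k : ℝ) ^ Q.natDegree := by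
    intro n
    have h1 := hMS n
    have hfin : {Q : k[X] | Q.Monic ∧ Irreducible Q ∧ Q.natDegree ≤ n}.Finite :=
      (fin_deg n).subset (fun Q hQ => hQ.2.2)
    have hfin2 : {Q : k[X] | Q.Monic ∧ Irreducible Q ∧ Q.natDegree ≤ n ∧ Q ∈ S}.Finite :=
      (fin_deg n).subset (fun Q hQ => hQ.2.2.1)
    rw [MS, finsum_mem_eq_finite_toFinset_sum _ hfin] at h1
    rw [finsum_mem_eq_finite_toFinset_sum _ hfin2]
    have hf0 : ∀ Q : k[X], 0 ≤ (Q.natDegree : ℝ) / (Nat.card k : ℝ) ^ Q.natDegree :=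
      fun Q => by positivity
    have h2 : ∑ Q ∈ hfin.toFinset, (Q.natDegree : ℝ) / (Nat.card k : ℝ) ^ Q.natDegree * w Q ≤
        ∑ Q ∈ hfin2.toFinset ∪ Ru, (Q.natDegree : ℝ) / (Nat.card k : ℝ) ^ Q.natDegree := by
      calc ∑ Q ∈ hfin.toFinset, (Q.natDegree : ℝ) / (Nat.card k : ℝ) ^ Q.natDegree * w Q
          = ∑ Q ∈ hfin.toFinset with w Q ≠ 0,
              (Q.natDegree : ℝ) / (Nat.card k : ℝ) ^ Q.natDegree * w Q :=
            (Finset.sum_filter_of_ne (p := fun Q => w Q ≠ 0)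
              (fun Q _ h h0 => h (by rw [h0, mul_zero]))).symm
        _ ≤ ∑ Q ∈ hfin.toFinset with w Q ≠ 0, (Q.natDegree : ℝ) / (Nat.card k : ℝ) ^ Q.natDegree :=
            Finset.sum_le_sum fun Q _ => mul_le_of_le_one_right (hf0 Q) (hw Q).2
        _ ≤ _ := by
            refine Finset.sum_le_sum_of_subset_of_nonneg ?_ fun Q _ _ => hf0 Q
            intro Q hQ
            rw [Finset.mem_filter, Set.Finite.mem_toFinset] at hQ
            rw [Finset.mem_union, Set.Finite.mem_toFinset]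
            by_cases h : Q ∈ Ru
            · exact Or.inr h
            · refine Or.inl ⟨hQ.1.1, hQ.1.2.1, hQ.1.2.2, ?_⟩
              rw [hS]
              exact ⟨hQ.2, h⟩
    have h3 := Finset.sum_union_inter (s₁ := hfin2.toFinset) (s₂ := Ru)
      (f := fun Q : k[X] => (Q.natDegree : ℝ) / (Nat.card k : ℝ) ^ Q.natDegree)
    have h4 : 0 ≤ ∑ Q ∈ hfin2.toFinset ∩ Ru, (Q.natDegree : ℝ) / (Nat.card k : ℝ) ^ Q.natDegree :=
      Finset.sum_nonneg fun Q _ => hf0 Q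
    linarith
  obtain ⟨cA, hcA, hcA2⟩ := hA k S α _ hα hSlow
  obtain ⟨C, hC, hCW⟩ := hW k w₁ β B hβ hw₁ hMS₁
  rw [← hq] at hcA2 hCW
  simp only [← hq]
  refine ⟨cA * (1 / 8 : ℝ) ^ α * (q ^ (C + r))⁻¹, 4 * (C + r + 1), by positivity, fun N hN => ?_⟩
  have hT : {J : Finset k[X] | (∀ Q ∈ J, Q.Monic ∧ Irreducible Q ∧ (w Q ≠ 0 ∨ w₁ Q ≠ 0)) ∧
      ∑ Q ∈ J, κ Q = 0 ∧ ∑ Q ∈ J, Q.natDegree ≤ N}.Finite :=
    (fin_J N).subset (fun J hJ => hJ.2.2)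
  refine ⟨hT, ?_⟩
  have hFam : (Fam S (N / 4)).Finite := (fin_J (N / 4)).subset (fun J hJ => hJ.2)
  have hWf : ∀ m : ℕ, {Q : k[X] | Q.Monic ∧ Irreducible Q ∧ m < Q.natDegree ∧
      Q.natDegree ≤ m + C ∧ w₁ Q ≠ 0}.Finite := fun m =>
    (fin_deg (m + C)).subset (fun Q hQ => hQ.2.2.2.1)
  obtain ⟨g, hg⟩ : ∃ g : Finset k[X] → Finset k[X], g = fun J => R (∑ Q ∈ J, κ Q) := ⟨_, rfl⟩
  obtain ⟨mm, hmm⟩ : ∃ mm : Finset k[X] → ℕ, mm = fun J =>
    N - C - ∑ Q ∈ J, Q.natDegree - ∑ Q ∈ g J, Q.natDegree := ⟨_, rfl⟩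
  have hgdeg : ∀ J, ∑ Q ∈ g J, Q.natDegree ≤ r := by
    intro J; rw [hg]; exact hRdeg _
  have hle : ∀ (J : Finset k[X]) (Q : k[X]), Q ∈ J → Q.natDegree ≤ ∑ Q ∈ J, Q.natDegree :=
    fun J Q hQ => Finset.single_le_sum (f := fun Q : k[X] => Q.natDegree)
      (fun _ _ => Nat.zero_le _) hQ
  -- facts about a pair
  have hm1 : ∀ J ∈ Fam S (N / 4), N / 2 < mm J ∧
      mm J + C + ∑ Q ∈ J, Q.natDegree + ∑ Q ∈ g J, Q.natDegree = N := by
    intro J hJ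
    have h1 := hJ.2
    have h2 := hgdeg J
    have h3 : mm J = N - C - ∑ Q ∈ J, Q.natDegree - ∑ Q ∈ g J, Q.natDegree := by rw [hmm]
    omega
  have hsmall : ∀ J ∈ Fam S (N / 4), ∀ P ∈ J ∪ g J, P.natDegree ≤ N / 2 := by
    intro J hJ P hP
    rcases Finset.mem_union.1 hP with h | h
    · have h1 := hle J P h
      have h2 := hJ.2
      omega
    · have h1 := hle _ P h
      have h2 := hgdeg J
      omega
  have hgRu : ∀ J, g J ⊆ Ru := by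
    intro J; rw [hg]; exact hRsub _
  have hJRu : ∀ J ∈ Fam S (N / 4), ∀ P ∈ J, P ∉ Ru := by
    intro J hJ P hP
    have h1 := (hJ.1 P hP).2.2
    rw [hS] at h1
    exact h1.2
  have hrec : ∀ J ∈ Fam S (N / 4), ∀ Q : k[X], N / 2 < Q.natDegree →
      (insert Q (J ∪ g J)).filter (fun P => P.natDegree ≤ N / 2 ∧ P ∉ Ru) = J := by
    intro J hJ Q hQ
    ext P
    rw [Finset.mem_filter, Finset.mem_insert]
    constructor
    · rintro ⟨h1 | h1, h2, h3⟩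
      · subst h1
        omega
      · rcases Finset.mem_union.1 h1 with h | h
        · exact h
        · exact absurd (hgRu J h) h3
    · intro h
      exact ⟨Or.inr (Finset.mem_union_left _ h), hsmall J hJ P (Finset.mem_union_left _ h),
        hJRu J hJ P h⟩
  have hcard : ∑ J ∈ hFam.toFinset, (hWf (mm J)).toFinset.card ≤
      ({J : Finset k[X] | (∀ Q ∈ J, Q.Monic ∧ Irreducible Q ∧ (w Q ≠ 0 ∨ w₁ Q ≠ 0)) ∧
        ∑ Q ∈ J, κ Q = 0 ∧ ∑ Q ∈ J, Q.natDegree ≤ N}).ncard := by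
    rw [Set.ncard_eq_toFinset_card _ hT, ← Finset.card_sigma]
    refine Finset.card_le_card_of_injOn (fun x => insert x.2 (x.1 ∪ g x.1)) ?_ ?_
    · rintro ⟨J, Q⟩ hx
      rw [Finset.mem_coe, Finset.mem_sigma, Set.Finite.mem_toFinset, Set.Finite.mem_toFinset] at hx
      obtain ⟨hJ, hQ1, hQ2, hQ3, hQ4, hQ5⟩ := hx
      simp only at hJ hQ1 hQ2 hQ3 hQ4 hQ5
      rw [Finset.mem_coe, Set.Finite.mem_toFinset]
      obtain ⟨hm2, hm3⟩ := hm1 J hJ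
      have hJw : ∀ P ∈ J, P.Monic ∧ Irreducible P ∧ w P ≠ 0 := by
        intro P hP
        have h1 := hJ.1 P hP
        rw [hS] at h1
        exact ⟨h1.1, h1.2.1, h1.2.2.1⟩
      have hQn : Q ∉ J ∪ g J := by
        intro h
        have := hsmall J hJ Q h
        omega
      have hdis : Disjoint J (g J) := by
        rw [Finset.disjoint_left]
        intro P h1 h2
        exact hJRu J hJ P h1 (hgRu J h2)
      have hk : ∑ P ∈ g J, κ P = ∑ P ∈ J, κ P := by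
        rw [hg]
        exact hR2 J hJw
      refine ⟨?_, ?_, ?_⟩
      · intro P hP
        rcases Finset.mem_insert.1 hP with h | h
        · subst h
          exact ⟨hQ1, hQ2, Or.inr hQ5⟩
        · rcases Finset.mem_union.1 h with h | h
          · exact ⟨(hJw P h).1, (hJw P h).2.1, Or.inl (hJw P h).2.2⟩
          · rw [hg] at h
            have := hR1 _ P h
            exact ⟨this.1, this.2.1, Or.inl this.2.2⟩
      · rw [Finset.sum_insert hQn, Finset.sum_union hdis, hk, hκ Q hQ5, zero_add]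
        exact hΓ _
      · rw [Finset.sum_insert hQn, Finset.sum_union hdis]
        omega
    · rintro ⟨J, Q⟩ hx ⟨J', Q'⟩ hx' h
      rw [Finset.mem_coe, Finset.mem_sigma, Set.Finite.mem_toFinset, Set.Finite.mem_toFinset] at hx hx'
      obtain ⟨hJ, hQ1, hQ2, hQ3, hQ4, hQ5⟩ := hx
      obtain ⟨hJ', hQ1', hQ2', hQ3', hQ4', hQ5'⟩ := hx'
      simp only at hJ hQ1 hQ2 hQ3 hQ4 hQ5 hJ' hQ1' hQ2' hQ3' hQ4' hQ5' h
      have a1 := (hm1 J hJ).1
      have a2 := (hm1 J' hJ').1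
      have b1 : J = J' := by
        rw [← hrec J hJ Q (by omega), ← hrec J' hJ' Q' (by omega), h]
      subst b1
      have b2 : Q = Q' := by
        have h1 : Q ∈ insert Q' (J ∪ g J) := by
          rw [← h]
          exact Finset.mem_insert_self _ _
        rcases Finset.mem_insert.1 h1 with h2 | h2
        · exact h2
        · have := hsmall J hJ Q h2
          omega
      subst b2
      rfl
  -- the sum
  have hN0 : (0 : ℝ) < N := by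
    have : 0 < N := by omega
    exact_mod_cast this
  have hterm : ∀ J ∈ hFam.toFinset, q ^ N * (q ^ (C + r))⁻¹ / N * (q ^ (∑ Q ∈ J, Q.natDegree))⁻¹ ≤
      ((hWf (mm J)).toFinset.card : ℝ) := by
    intro J hJ
    rw [Set.Finite.mem_toFinset] at hJ
    obtain ⟨_, h2⟩ := hm1 J hJ
    have h3 := hCW (mm J)
    rw [Set.ncard_eq_toFinset_card _ (hWf (mm J))] at h3
    refine le_trans ?_ h3
    have h4 := hgdeg J
    have h5 : (mm J : ℝ) + C ≤ N := by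
      have : mm J + C ≤ N := by omega
      exact_mod_cast this
    have h6 : (0 : ℝ) < (mm J : ℝ) + C := by
      have : (0 : ℝ) < C := by exact_mod_cast hC
      positivity
    have h7 : q ^ N ≤ q ^ mm J * q ^ (C + r) * q ^ (∑ Q ∈ J, Q.natDegree) := by
      rw [← pow_add, ← pow_add]
      exact pow_le_pow_right₀ hq1.le (by omega)
    have h8 : q ^ N * (q ^ (C + r))⁻¹ * (q ^ (∑ Q ∈ J, Q.natDegree))⁻¹ ≤ q ^ mm J := by
      rw [← div_eq_mul_inv, ← div_eq_mul_inv, div_le_iff₀ (by positivity), div_le_iff₀ (by positivity)]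
      calc q ^ N ≤ _ := h7
        _ = _ := by ring
    calc q ^ N * (q ^ (C + r))⁻¹ / N * (q ^ (∑ Q ∈ J, Q.natDegree))⁻¹
        = q ^ N * (q ^ (C + r))⁻¹ * (q ^ (∑ Q ∈ J, Q.natDegree))⁻¹ / N := by ring
      _ ≤ q ^ mm J / N := by gcongr
      _ ≤ q ^ mm J / (mm J + C) := by gcongr
  have hsum : q ^ N * (q ^ (C + r))⁻¹ / N * (cA * ((N / 4 : ℕ) : ℝ) ^ α) ≤
      (({J : Finset k[X] | (∀ Q ∈ J, Q.Monic ∧ Irreducible Q ∧ (w Q ≠ 0 ∨ w₁ Q ≠ 0)) ∧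
        ∑ Q ∈ J, κ Q = 0 ∧ ∑ Q ∈ J, Q.natDegree ≤ N}.ncard : ℕ) : ℝ) := by
    have h1 := hcA2 (N / 4) (by omega)
    rw [finsum_mem_eq_finite_toFinset_sum _ hFam] at h1
    calc q ^ N * (q ^ (C + r))⁻¹ / N * (cA * ((N / 4 : ℕ) : ℝ) ^ α)
        ≤ q ^ N * (q ^ (C + r))⁻¹ / N * ∑ J ∈ hFam.toFinset, (q ^ (∑ Q ∈ J, Q.natDegree))⁻¹ := by
          gcongr
      _ = ∑ J ∈ hFam.toFinset, q ^ N * (q ^ (C + r))⁻¹ / N * (q ^ (∑ Q ∈ J, Q.natDegree))⁻¹ := by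
          rw [Finset.mul_sum]
      _ ≤ ∑ J ∈ hFam.toFinset, ((hWf (mm J)).toFinset.card : ℝ) := Finset.sum_le_sum hterm
      _ ≤ _ := by exact_mod_cast hcard
  refine le_trans ?_ hsum
  have h8 : (N : ℝ) / 8 ≤ ((N / 4 : ℕ) : ℝ) := by
    have h1 : N ≤ 8 * (N / 4) := by omega
    have h2 : (N : ℝ) ≤ 8 * ((N / 4 : ℕ) : ℝ) := by exact_mod_cast h1
    linarith
  have h9 : (N : ℝ) ^ α * (1 / 8 : ℝ) ^ α ≤ ((N / 4 : ℕ) : ℝ) ^ α := by
    rw [← Real.mul_rpow hN0.le (by norm_num)]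
    refine Real.rpow_le_rpow (by positivity) ?_ hα.le
    linarith
  rw [Real.rpow_sub_one hN0.ne']
  calc cA * (1 / 8 : ℝ) ^ α * (q ^ (C + r))⁻¹ * q ^ N * ((N : ℝ) ^ α / N)
      = q ^ N * (q ^ (C + r))⁻¹ / N * (cA * ((N : ℝ) ^ α * (1 / 8 : ℝ) ^ α)) := by ring
    _ ≤ _ := by gcongr

end Pool.Agent.Helper28H.QT
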