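import Pool.Agent.Helper28H.QT.CNT

/-!
# Project QT: the number of admissible primes
-/

set_option autoImplicit false

open Polynomial IsDedekindDomain

namespace Pool.Agent.Helper28H.QT

open Pool.Agent.Helper28H.FE

/-- The number of admissible primes. -/
def S_CNP : Prop := ∀ (g : ℕ) (k K : Type) [Field k] [Finite k] [Field K] [Algebra k[X] K]
  [IsFractionRing k[X] K] (f : k[X][X]) (P₀ : k[X]), Hyp K g f P₀ → ∀ T : Finset k[X],
  (∀ P ∈ T, P.Monic ∧ Irreducible P ∧ ¬ P₀ ∣ P) → ∃ (c : ℝ) (N₀ : ℕ), 0 < c ∧ ∀ N : ℕ, N₀ ≤ N →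
    c * (Nat.card k : ℝ) ^ N / (N : ℝ) ≤
      (({δ : k[X] | δ ∈ AdmSet f T N ∧ Irreducible δ}.ncard : ℕ) : ℝ)

theorem t_CNP (hA : S_APP) (hW : S_CNW) : S_CNP := by
  intro g k K _ _ _ _ _ f P₀ hyp T hT
  obtain ⟨w, w₁, β, B, hβ, hw, hw₁, h1, h2, h3, h4⟩ := hA g k K f P₀ hyp T hT
  obtain ⟨C, hC, hcw⟩ := hW k w₁ β B hβ hw₁ h2
  have hq : (0 : ℝ) < (Nat.card k : ℝ) := by exact_mod_cast Nat.card_pos (α := k)
  refine ⟨((Nat.card k : ℝ) ^ C)⁻¹, C, by positivity, fun N hN => ?_⟩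
  have hfin : {δ : k[X] | δ ∈ AdmSet f T N ∧ Irreducible δ}.Finite :=
    (fin_natDegree (k := k) N).subset fun δ hδ => hδ.1.2.2.1
  have h5 := hcw (N - C)
  have hNC : ((N - C : ℕ) : ℝ) + (C : ℝ) = (N : ℝ) := by
    rw [← Nat.cast_add, Nat.sub_add_cancel hN]
  rw [hNC] at h5
  have h6 : ((Nat.card k : ℝ) ^ C)⁻¹ * (Nat.card k : ℝ) ^ N = (Nat.card k : ℝ) ^ (N - C) := by
    rw [← Nat.sub_add_cancel hN, pow_add, Nat.add_sub_cancel]
    field_simp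
  rw [h6]
  refine h5.trans ?_
  norm_cast
  refine Set.ncard_le_ncard ?_ hfin
  rintro Q ⟨a1, a2, a3, a4, a5⟩
  obtain ⟨-, -, b1, b2, b3⟩ := h4 Q a5
  refine ⟨⟨a1, a2.squarefree, by omega, b1, fun P hP hd => ?_, b3⟩, a2⟩
  have e : Ideal.span {P} = Ideal.span {Q} :=
    Ideal.span_singleton_eq_span_singleton.2 (hP.associated_of_dvd a2 hd)
  exact irr_congr e.symm b2

end Pool.Agent.Helper28H.QT
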