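import Pool.Agent.Helper28H.QT.Stm

/-!
# Project QT: the number of admissible twists
-/

set_option autoImplicit false

open Polynomial IsDedekindDomain

namespace Pool.Agent.Helper28H.QT

open Pool.Agent.Helper28H.FE

/-- The admissible squarefree polynomials. -/
def AdmSet {k : Type} [Field k] (f : k[X][X]) (T : Finset k[X]) (N : ℕ) : Set k[X] :=
  {δ : k[X] | δ.Monic ∧ Squarefree δ ∧ δ.natDegree ≤ N ∧ Even δ.natDegree ∧
    (∀ P, Irreducible P → P ∣ δ → Irreducible (f.map (Ideal.Quotient.mk (Ideal.span {P})))) ∧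
    ∀ P ∈ T, ¬ P ∣ δ ∧ ∃ z : k[X], P ∣ δ - z ^ 2}

/-- The number of admissible squarefree polynomials. -/
def S_CNT : Prop := ∀ (g : ℕ) (k K : Type) [Field k] [Finite k] [Field K] [Algebra k[X] K]
  [IsFractionRing k[X] K] (f : k[X][X]) (P₀ : k[X]), Hyp K g f P₀ → ∀ T : Finset k[X],
  (∀ P ∈ T, P.Monic ∧ Irreducible P ∧ ¬ P₀ ∣ P) → ∃ (c : ℝ) (N₀ : ℕ), 0 < c ∧ ∀ N : ℕ, N₀ ≤ N →
    (AdmSet f T N).Finite ∧
    c * (Nat.card k : ℝ) ^ N * (N : ℝ) ^ ((2 * g + 1 : ℝ)⁻¹ - 1) ≤ ((AdmSet f T N).ncard : ℝ)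

theorem fin_natDegree {k : Type} [Field k] [Finite k] (n : ℕ) :
    {Q : k[X] | Q.natDegree ≤ n}.Finite := by
  haveI : Finite (Polynomial.degreeLT k (n + 1)) :=
    Finite.of_equiv _ (Polynomial.degreeLTEquiv k (n + 1)).toEquiv.symm
  refine (Set.toFinite (Polynomial.degreeLT k (n + 1) : Set k[X])).subset ?_
  rintro Q hQ
  rw [SetLike.mem_coe, Polynomial.mem_degreeLT]
  refine lt_of_le_of_lt Polynomial.degree_le_natDegree ?_
  exact_mod_cast Nat.lt_succ_of_le hQ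

theorem coprime_of_ne {k : Type} [Field k] {P Q : k[X]} (hP : P.Monic ∧ Irreducible P)
    (hQ : Q.Monic ∧ Irreducible Q) (h : P ≠ Q) : IsCoprime P Q :=
  (hP.2.coprime_iff_not_dvd).2 fun hd =>
    h (eq_of_monic_of_associated hP.1 hQ.1 (hP.2.associated_of_dvd hQ.2 hd))

theorem prod_sqf {k : Type} [Field k] (U : Finset k[X]) (hU : ∀ Q ∈ U, Q.Monic ∧ Irreducible Q) :
    Squarefree (∏ Q ∈ U, Q) := by
  classical
  induction U using Finset.induction_on with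
  | empty => rw [Finset.prod_empty]; exact squarefree_one
  | insert Q U hQ ih =>
    have hc : IsCoprime Q (∏ P ∈ U, P) := by
      apply IsCoprime.prod_right
      intro P hP
      exact coprime_of_ne (hU Q (Finset.mem_insert_self _ _))
        (hU P (Finset.mem_insert_of_mem hP)) (fun h => hQ (h ▸ hP))
    rw [Finset.prod_insert hQ]
    exact squarefree_mul_iff.2 ⟨hc.isRelPrime, (hU Q (Finset.mem_insert_self _ _)).2.squarefree,
      ih fun P hP => hU P (Finset.mem_insert_of_mem hP)⟩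

theorem mem_of_dvd {k : Type} [Field k] (U : Finset k[X]) (hU : ∀ Q ∈ U, Q.Monic ∧ Irreducible Q)
    {π : k[X]} (h1 : π.Monic) (h2 : Irreducible π) (h : π ∣ ∏ Q ∈ U, Q) : π ∈ U := by
  obtain ⟨Q, hQ, hd⟩ := h2.prime.exists_mem_finset_dvd h
  have : π = Q := eq_of_monic_of_associated h1 (hU Q hQ).1
    (h2.associated_of_dvd (hU Q hQ).2 hd)
  rw [this]; exact hQ

theorem irr_congr {k : Type} [Field k] {f : k[X][X]} {I I' : Ideal k[X]} (h : I = I')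
    (hI : Irreducible (f.map (Ideal.Quotient.mk I))) : Irreducible (f.map (Ideal.Quotient.mk I')) := by
  subst h
  exact hI

open Classical in
theorem t_CNT (hA : S_APP) (hI : S_CNI) (hS : S_SQC) : S_CNT := by
  intro g k K _ _ _ _ _ f P₀ hyp T hT
  obtain ⟨w, w₁, β, B, hβ, hw, hw₁, h1, h2, h3, h4⟩ := hA g k K f P₀ hyp T hT
  obtain ⟨κ, hκ⟩ : ∃ κ : k[X] → (T → ZMod 2) × ZMod 2, ∀ Q, κ Q =
      (fun P : T => if ∃ z : k[X], (P : k[X]) ∣ Q - z ^ 2 then (0 : ZMod 2) else 1,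
        (Q.natDegree : ZMod 2)) := ⟨_, fun _ => rfl⟩
  have hadd : ∀ γ : ZMod 2, γ + γ = 0 := by decide
  obtain ⟨c, N₀, hc, hN⟩ := hI k w w₁ (2 * g + 1 : ℝ)⁻¹ β B (by positivity) hβ hw hw₁ h1 h2
    ((T → ZMod 2) × ZMod 2) (fun γ => by
      refine Prod.ext (funext fun P => hadd _) (hadd _)) κ (fun Q hQ => by
      obtain ⟨-, -, a1, -, a2⟩ := h4 Q hQ
      rw [hκ]
      refine Prod.ext (funext fun P => ?_) ?_
      · exact if_pos (a2 P P.2).2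
      · exact (ZMod.natCast_eq_zero_iff _ _).2 a1.two_dvd)
  refine ⟨c, N₀, hc, fun N hNN => ?_⟩
  obtain ⟨-, hle⟩ := hN N hNN
  have hfin : (AdmSet f T N).Finite := (fin_natDegree (k := k) N).subset fun δ hδ => hδ.2.2.1
  refine ⟨hfin, hle.trans ?_⟩
  have hall : ∀ Q, (w Q ≠ 0 ∨ w₁ Q ≠ 0) →
      Irreducible (f.map (Ideal.Quotient.mk (Ideal.span {Q}))) ∧ ∀ P ∈ T, ¬ P ∣ Q := by
    intro Q hQ
    rcases hQ with hQ | hQ
    · exact ⟨(h3 Q hQ).2.2.1, (h3 Q hQ).2.2.2⟩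
    · exact ⟨(h4 Q hQ).2.2.2.1, fun P hP => ((h4 Q hQ).2.2.2.2 P hP).1⟩
  norm_cast
  refine Set.ncard_le_ncard_of_injOn (fun J => ∏ Q ∈ J, Q) ?_ ?_ hfin
  · rintro J ⟨b1, b2, b3⟩
    have hmi : ∀ Q ∈ J, Q.Monic ∧ Irreducible Q := fun Q hQ => ⟨(b1 Q hQ).1, (b1 Q hQ).2.1⟩
    have hdeg : (∏ Q ∈ J, Q).natDegree = ∑ Q ∈ J, Q.natDegree :=
      natDegree_prod_of_monic _ _ fun Q hQ => (hmi Q hQ).1
    have hb2 : ∑ Q ∈ J, κ Q = 0 := b2
    have hz2 := congrArg Prod.snd hb2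
    rw [Prod.snd_sum] at hz2
    refine ⟨monic_prod_of_monic _ _ fun Q hQ => (hmi Q hQ).1, prod_sqf J hmi, by rw [hdeg]; exact b3,
      ?_, fun P hP hd => ?_, fun P hP => ⟨fun hd => ?_, ?_⟩⟩
    · rw [hdeg, even_iff_two_dvd, ← ZMod.natCast_eq_zero_iff, Nat.cast_sum]
      refine Eq.trans ?_ hz2
      exact Finset.sum_congr rfl fun Q _ => by rw [hκ]
    · obtain ⟨Q, hQ, hdQ⟩ := hP.prime.exists_mem_finset_dvd hd
      have e : Ideal.span {P} = Ideal.span {Q} :=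
        Ideal.span_singleton_eq_span_singleton.2 (hP.associated_of_dvd (hmi Q hQ).2 hdQ)
      exact irr_congr e.symm (hall Q (b1 Q hQ).2.2).1
    · obtain ⟨Q, hQ, hdQ⟩ := (hT P hP).2.1.prime.exists_mem_finset_dvd hd
      exact (hall Q (b1 Q hQ).2.2).2 P hP hdQ
    · refine hS k P J (hT P hP).2.1 (fun Q hQ => (hall Q (b1 Q hQ).2.2).2 P hP) ?_
      have hz1 := congrFun (congrArg Prod.fst hb2) ⟨P, hP⟩
      rw [Prod.fst_sum, Finset.sum_apply] at hz1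
      refine Eq.trans ?_ hz1
      exact Finset.sum_congr rfl fun Q _ => by rw [hκ]
  · rintro J ⟨b1, -, -⟩ J' ⟨b1', -, -⟩ hJJ
    have hJJ' : ∏ Q ∈ J, Q = ∏ Q ∈ J', Q := hJJ
    ext Q
    constructor
    · intro hQ
      refine mem_of_dvd J' (fun Q hQ => ⟨(b1' Q hQ).1, (b1' Q hQ).2.1⟩) (b1 Q hQ).1 (b1 Q hQ).2.1 ?_
      rw [← hJJ']
      exact Finset.dvd_prod_of_mem _ hQ
    · intro hQ
      refine mem_of_dvd J (fun Q hQ => ⟨(b1 Q hQ).1, (b1 Q hQ).2.1⟩) (b1' Q hQ).1 (b1' Q hQ).2.1 ?_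
      rw [hJJ']
      exact Finset.dvd_prod_of_mem _ hQ

end Pool.Agent.Helper28H.QT
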