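import Pool.Agent.Helper28H.QT.Stm

/-!
# Project QT, piece CNW: many primes in short windows of degrees
-/

set_option autoImplicit false

open Polynomial

namespace Pool.Agent.Helper28H.QT

namespace Cnw

theorem finite_le {k : Type} [Field k] [Finite k] (n : ℕ) : {Q : k[X] | Q.natDegree ≤ n}.Finite := by
  have : Function.Injective (fun Q : {Q : k[X] | Q.natDegree ≤ n} =>
      fun i : Fin (n + 1) => (Q : k[X]).coeff i) := by
    rintro ⟨Q, hQ⟩ ⟨R, hR⟩ h
    apply Subtype.ext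
    ext i
    by_cases hi : i < n + 1
    · exact congrFun h ⟨i, hi⟩
    · have h1 : Q.natDegree < i := lt_of_le_of_lt hQ (by omega)
      have h2 : R.natDegree < i := lt_of_le_of_lt hR (by omega)
      simp only
      rw [coeff_eq_zero_of_natDegree_lt h1, coeff_eq_zero_of_natDegree_lt h2]
  exact Set.finite_coe_iff.1 (Finite.of_injective _ this)

end Cnw

open Cnw in
/-- **CNW** -/
theorem t_CNW : S_CNW := by
  intro k _ _ w₁ β B hβ hw hMS
  classical
  have hq : (2 : ℝ) ≤ (Nat.card k : ℝ) := by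
    have : 1 < Nat.card k := Finite.one_lt_card
    exact_mod_cast this
  set q : ℝ := (Nat.card k : ℝ) with hqd
  obtain ⟨C, hC⟩ := exists_nat_gt ((1 + 2 * B) / β)
  refine ⟨C + 1, Nat.succ_pos _, fun m => ?_⟩
  have hf : ∀ n : ℕ, {Q : k[X] | Q.Monic ∧ Irreducible Q ∧ Q.natDegree ≤ n}.Finite :=
    fun n => (finite_le n).subset fun Q hQ => hQ.2.2
  have hE : {Q : k[X] | Q.Monic ∧ Irreducible Q ∧ m < Q.natDegree ∧ Q.natDegree ≤ m + (C + 1) ∧
      w₁ Q ≠ 0}.Finite := (finite_le (m + (C + 1))).subset fun Q hQ => hQ.2.2.2.1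
  have h1 : 1 ≤ MS w₁ (m + (C + 1)) - MS w₁ m := by
    have e1 := (abs_le.1 (hMS (m + (C + 1)))).1
    have e2 := (abs_le.1 (hMS m)).2
    rw [div_lt_iff₀ hβ] at hC
    push_cast at e1
    nlinarith
  have h2 : MS w₁ (m + (C + 1)) - MS w₁ m = ∑ Q ∈ (hf (m + (C + 1))).toFinset \ (hf m).toFinset,
      (Q.natDegree : ℝ) / q ^ Q.natDegree * w₁ Q := by
    unfold MS
    rw [finsum_mem_eq_finite_toFinset_sum _ (hf _), finsum_mem_eq_finite_toFinset_sum _ (hf _),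
      sub_eq_iff_eq_add, Finset.sum_sdiff]
    intro Q hQ
    rw [Set.Finite.mem_toFinset] at hQ ⊢
    exact ⟨hQ.1, hQ.2.1, by have := hQ.2.2; omega⟩
  have h3 : ∑ Q ∈ (hf (m + (C + 1))).toFinset \ (hf m).toFinset,
      (Q.natDegree : ℝ) / q ^ Q.natDegree * w₁ Q =
      ∑ Q ∈ hE.toFinset, (Q.natDegree : ℝ) / q ^ Q.natDegree * w₁ Q := by
    symm
    apply Finset.sum_subset
    · intro Q hQ
      rw [Set.Finite.mem_toFinset] at hQ
      rw [Finset.mem_sdiff, Set.Finite.mem_toFinset, Set.Finite.mem_toFinset]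
      exact ⟨⟨hQ.1, hQ.2.1, hQ.2.2.2.1⟩, fun h => by have := h.2.2; have := hQ.2.2.1; omega⟩
    · intro Q hQ hQ'
      rw [Finset.mem_sdiff, Set.Finite.mem_toFinset, Set.Finite.mem_toFinset] at hQ
      rw [Set.Finite.mem_toFinset] at hQ'
      obtain ⟨⟨a1, a2, a3⟩, a4⟩ := hQ
      by_cases hw0 : w₁ Q = 0
      · rw [hw0, mul_zero]
      · exfalso
        refine hQ' ⟨a1, a2, ?_, a3, hw0⟩
        by_contra hlt
        exact a4 ⟨a1, a2, by omega⟩
  have h4 : ∑ Q ∈ hE.toFinset, (Q.natDegree : ℝ) / q ^ Q.natDegree * w₁ Q ≤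
      ∑ Q ∈ hE.toFinset, ((m : ℝ) + ((C + 1 : ℕ) : ℝ)) / q ^ m := by
    refine Finset.sum_le_sum fun Q hQ => ?_
    rw [Set.Finite.mem_toFinset] at hQ
    obtain ⟨_, _, a1, a2, _⟩ := hQ
    have b1 : (Q.natDegree : ℝ) / q ^ Q.natDegree ≤ ((m : ℝ) + ((C + 1 : ℕ) : ℝ)) / q ^ m := by
      have c1 : (Q.natDegree : ℝ) ≤ (m : ℝ) + ((C + 1 : ℕ) : ℝ) := by exact_mod_cast a2
      have c2 : q ^ m ≤ q ^ Q.natDegree := pow_le_pow_right₀ (by linarith) a1.le
      have c3 : 0 < q ^ m := by positivity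
      exact div_le_div₀ (by positivity) c1 c3 c2
    calc (Q.natDegree : ℝ) / q ^ Q.natDegree * w₁ Q
        ≤ (Q.natDegree : ℝ) / q ^ Q.natDegree * 1 :=
          mul_le_mul_of_nonneg_left (hw Q).2 (by positivity)
      _ ≤ _ := by rw [mul_one]; exact b1
  rw [Finset.sum_const, nsmul_eq_mul, ← Set.ncard_eq_toFinset_card _ hE] at h4
  rw [h2, h3] at h1
  have h5 := h1.trans h4
  have hm : (0 : ℝ) < (m : ℝ) + ((C + 1 : ℕ) : ℝ) := by positivity
  have hqm : (0 : ℝ) < q ^ m := by positivity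
  rw [div_le_iff₀ hm]
  rw [mul_div_assoc', le_div_iff₀ hqm, one_mul] at h5
  exact h5

end Pool.Agent.Helper28H.QT
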