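import Pool.Agent.Helper28H.QT.Stm

/-!
# Piece CYC of project QT: the conjugacy class of a cycle
-/

set_option autoImplicit false

open Polynomial

namespace Pool.Agent.Helper28H.QT

theorem t_CYC : S_CYC := by
  classical
  intro g k K N _ _ _ _ _ _ _ f σ x hf hσ hinj hgen
  haveI : Fintype (N ≃ₐ[K] N) := Fintype.ofFinite _
  obtain ⟨n, hn⟩ : ∃ n, n = 2 * g + 1 := ⟨_, rfl⟩
  rw [← hn] at hf hσ
  rw [← hn]
  -- the conjugates
  have hpow : ∀ (h : N ≃ₐ[K] N) (j : ℕ) (z : N), ((h * σ * h⁻¹) ^ j) (h z) = h ((σ ^ j) z) := by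
    intro h j z
    rw [conj_pow]
    rw [AlgEquiv.mul_apply, AlgEquiv.mul_apply]
    have e : h⁻¹ (h z) = z := by
      rw [← AlgEquiv.mul_apply, inv_mul_cancel, AlgEquiv.one_apply]
    rw [e]
  have hroot : ∀ h : N ≃ₐ[K] N,
      f.map ((algebraMap K N).comp (algebraMap k[X] K)) =
        ∏ j ∈ Finset.range n, (X - C (h ((σ ^ j) x))) := by
    intro h
    have h1 := congrArg (Polynomial.map (h : N →+* N)) hf
    rw [Polynomial.map_map, Polynomial.map_prod] at h1
    have h2 : ((h : N →+* N)).comp ((algebraMap K N).comp (algebraMap k[X] K)) =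
        (algebraMap K N).comp (algebraMap k[X] K) := by
      refine RingHom.ext fun c => ?_
      show h (algebraMap K N (algebraMap k[X] K c)) = _
      rw [h.commutes]
      rfl
    rw [h2] at h1
    rw [h1]
    refine Finset.prod_congr rfl fun j _ => ?_
    rw [Polynomial.map_sub, Polynomial.map_X, Polynomial.map_C]
    rfl
  have hmem : ∀ h : N ≃ₐ[K] N, ∃ j < n, h x = (σ ^ j) x := by
    intro h
    have hpos : 0 < n := by omega
    have h1 : (∏ j ∈ Finset.range n, (X - C ((σ ^ j) x)) : N[X]).eval (h x) = 0 := by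
      rw [← hf, hroot h, Polynomial.eval_prod]
      refine Finset.prod_eq_zero (Finset.mem_range.2 hpos) ?_
      rw [pow_zero, AlgEquiv.one_apply, Polynomial.eval_sub, Polynomial.eval_X,
        Polynomial.eval_C, sub_self]
    rw [Polynomial.eval_prod, Finset.prod_eq_zero_iff] at h1
    obtain ⟨j, hj, h2⟩ := h1
    rw [Polynomial.eval_sub, Polynomial.eval_X, Polynomial.eval_C, sub_eq_zero] at h2
    exact ⟨j, Finset.mem_range.1 hj, h2⟩
  refine ⟨Finset.univ.image fun h : N ≃ₐ[K] N => h * σ * h⁻¹, ?_, ?_⟩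
  · rw [Nat.card_eq_fintype_card, ← Finset.card_univ]
    refine Finset.card_le_mul_card_image _ _ fun τ _ => ?_
    have hsub : ((Finset.univ.filter fun h : N ≃ₐ[K] N => h * σ * h⁻¹ = τ).image
        fun h => h x) ⊆ (Finset.range n).image fun j => (σ ^ j) x := by
      intro z hz
      obtain ⟨h, _, rfl⟩ := Finset.mem_image.1 hz
      obtain ⟨j, hj, h1⟩ := hmem h
      exact Finset.mem_image.2 ⟨j, Finset.mem_range.2 hj, h1.symm⟩
    have hinj' : Set.InjOn (fun h : N ≃ₐ[K] N => h x)
        (Finset.univ.filter fun h : N ≃ₐ[K] N => h * σ * h⁻¹ = τ : Finset (N ≃ₐ[K] N)) := by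
      intro h hh h' hh' he
      have e1 := (Finset.mem_filter.1 (Finset.mem_coe.1 hh)).2
      have e2 := (Finset.mem_filter.1 (Finset.mem_coe.1 hh')).2
      have he' : h x = h' x := he
      have hj : ∀ j : ℕ, h ((σ ^ j) x) = h' ((σ ^ j) x) := by
        intro j
        rw [← hpow h j x, ← hpow h' j x, e1, e2, he']
      have hadj : ∀ z ∈ IntermediateField.adjoin K (Set.range fun j : ℕ => (σ ^ j) x),
          h z = h' z := by
        intro z hz
        induction hz using IntermediateField.adjoin_induction with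
        | mem z hz =>
          obtain ⟨j, rfl⟩ := hz
          exact hj j
        | algebraMap c => rw [h.commutes, h'.commutes]
        | add a b _ _ ha hb => rw [map_add, map_add, ha, hb]
        | inv a _ ha => rw [map_inv₀, map_inv₀, ha]
        | mul a b _ _ ha hb => rw [map_mul, map_mul, ha, hb]
      refine AlgEquiv.ext fun z => hadj z ?_
      rw [hgen]
      exact IntermediateField.mem_top
    calc (Finset.univ.filter fun h : N ≃ₐ[K] N => h * σ * h⁻¹ = τ).card
        = ((Finset.univ.filter fun h : N ≃ₐ[K] N => h * σ * h⁻¹ = τ).image fun h => h x).card :=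
          (Finset.card_image_of_injOn hinj').symm
      _ ≤ ((Finset.range n).image fun j => (σ ^ j) x).card := Finset.card_le_card hsub
      _ ≤ (Finset.range n).card := Finset.card_image_le
      _ = n := Finset.card_range n
  · intro τ hτ
    obtain ⟨h, _, rfl⟩ := Finset.mem_image.1 hτ
    refine ⟨?_, h x, ?_, ?_⟩
    · exact (MulAut.conj h).orderOf_eq σ
    · rw [hpow, hσ]
    · rw [hroot h]
      refine Finset.prod_congr rfl fun j _ => ?_
      rw [hpow]

end Pool.Agent.Helper28H.QT
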