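import Pool.Agent.Helper28H.QT.Stm

/-! # Project QT (helper28): piece SQC (helper32) -/

set_option autoImplicit false

open Polynomial IsDedekindDomain

namespace Pool.Agent.Helper28H.QT

open Classical in
theorem t_SQC : S_SQC := by
  intro k _ _ P J hP hJ hs
  haveI : Fact (Irreducible P) := ⟨hP⟩
  haveI : Module.Finite k (AdjoinRoot P) := (AdjoinRoot.powerBasis hP.ne_zero).finite
  haveI : Finite (AdjoinRoot P) := Module.finite_of_finite k
  letI : Fintype (AdjoinRoot P) := Fintype.ofFinite _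
  have hsq : ∀ Q : k[X], (∃ z : k[X], P ∣ Q - z ^ 2) ↔ IsSquare (AdjoinRoot.mk P Q) := by
    intro Q
    constructor
    · rintro ⟨z, hz⟩
      refine ⟨AdjoinRoot.mk P z, ?_⟩
      rw [← map_mul, ← pow_two]
      exact AdjoinRoot.mk_eq_mk.2 hz
    · rintro ⟨r, hr⟩
      obtain ⟨z, rfl⟩ := AdjoinRoot.mk_surjective r
      refine ⟨z, AdjoinRoot.mk_eq_mk.1 ?_⟩
      rw [hr, ← map_mul, pow_two]
  have hne : ∀ Q : k[X], ¬ P ∣ Q → AdjoinRoot.mk P Q ≠ 0 := by
    intro Q h h0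
    exact h (AdjoinRoot.mk_eq_zero.1 h0)
  have hnd : ∀ J : Finset k[X], (∀ Q ∈ J, ¬ P ∣ Q) → ¬ P ∣ ∏ Q ∈ J, Q := by
    intro J hJ h
    obtain ⟨Q, hQ, h1⟩ := (hP.prime.dvd_finset_prod_iff _).1 h
    exact hJ Q hQ h1
  have key : ∀ J : Finset k[X], (∀ Q ∈ J, ¬ P ∣ Q) →
      quadraticChar (AdjoinRoot P) (AdjoinRoot.mk P (∏ Q ∈ J, Q)) =
        if ∑ Q ∈ J, (if ∃ z : k[X], P ∣ Q - z ^ 2 then (0 : ZMod 2) else 1) = 0 then 1 else -1 := by
    intro J
    induction J using Finset.induction_on with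
    | empty => intro _; simp
    | insert a J ha ih =>
      intro hJ
      rw [Finset.prod_insert ha, Finset.sum_insert ha, map_mul, map_mul,
        ih (fun Q hQ => hJ Q (Finset.mem_insert_of_mem hQ))]
      have ha0 := hne a (hJ a (Finset.mem_insert_self _ _))
      generalize ∑ Q ∈ J, (if ∃ z : k[X], P ∣ Q - z ^ 2 then (0 : ZMod 2) else 1) = s
      by_cases h : ∃ z : k[X], P ∣ a - z ^ 2
      · rw [if_pos h, (quadraticChar_one_iff_isSquare ha0).2 ((hsq a).1 h), one_mul, zero_add]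
      · rw [if_neg h, quadraticChar_neg_one_iff_not_isSquare.2 (fun h1 => h ((hsq a).2 h1))]
        revert s
        decide
  have h1 := key J hJ
  rw [if_pos hs] at h1
  exact (hsq _).2 ((quadraticChar_one_iff_isSquare (hne _ (hnd J hJ))).1 h1)

end Pool.Agent.Helper28H.QT
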