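import Pool.Agent.Helper28H.QT.DFR
import Pool.Agent.Helper28H.QT.CYC
import Pool.Agent.Helper28H.QT.APP
import Pool.Agent.Helper28H.QT.CNA
import Pool.Agent.Helper28H.QT.CNW
import Pool.Agent.Helper28H.QT.CNI
import Pool.Agent.Helper28H.QT.SQC
import Pool.Agent.Helper28H.QT.CNT
import Pool.Agent.Helper28H.QT.CNP

/-!
# Project QT: all pieces

DFR by helper23, CYC by helper42, CNA and CNW by helper59, CNI and SQC by helper32, the others by helper28.
-/

set_option autoImplicit false

namespace Pool.Agent.Helper28H.QT

/-- The number of admissible polynomials. -/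
theorem cntT : S_CNT := t_CNT (t_APP t_DFR t_CYC) (t_CNI t_CNA t_CNW) t_SQC

/-- The number of admissible primes. -/
theorem cnpT : S_CNP := t_CNP (t_APP t_DFR t_CYC) t_CNW

end Pool.Agent.Helper28H.QT
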