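import Pool.Agent.Helper28H.FE.Stm3

/-!
# Project QT (helper28): the number of quadratic twists without 2-part

Theorem. Let `g ≥ 1`, `k` a finite field of odd characteristic with `q` elements, `K = k(t)`, `f` generic of
degree `n = 2 g + 1` (`Hyp K g f P₀`). There are a monic squarefree `d` and `c > 0` such that for all large `N`
at least `c q ^ N N ^ (1 / n - 1)` of the monic squarefree multiples `D` of `d` of degree at most `N` have:
for ALL `M` admissible for `f`, `d` the Jacobian of the quadratic twist of `y ^ 2 = f(x)` by `D` has no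
2-part over `M`.

Proof. By `C_MAIN` (`FE/MainE.lean`) there is `d` such that this holds for all `D = d δ` with `δ` admissible: `f`
is irreducible modulo the primes `Q` dividing `δ`, and `δ` is a square at infinity and at the bad primes
(`P ^ 2 ∣ disc f`). So the admissible `δ` have to be counted. The primes `Q` modulo which `f` is
irreducible have the density `1 / n` (`n`-cycles), in the sense of Mertens (`S_DFR`, `S_APP`); the
products of such primes are counted by `S_CNA`; a bounded factor and a last large prime which is a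
square at the bad places are used to make the product a square (`S_CNW`, `S_CNI`).

Every piece: file `Pool/Agent/Helper28H/QT/NAME.lean`, `import Pool.Agent.Helper28H.QT.Stm` and what is
named in the docstring, namespace `Pool.Agent.Helper28H.QT`, theorem `t_NAME`. If the docstring says
`uses S_X` this is a hypothesis of the theorem: `theorem t_NAME (hX : S_X) : S_NAME`.
-/

set_option autoImplicit false

open Polynomial IsDedekindDomain

namespace Pool.Agent.Helper28H.QT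

open Pool.Agent.Helper28H.FE

/-- The sum of `w Q deg Q / q ^ deg Q` over the monic irreducible polynomials of degree at most `n`. -/
noncomputable def MS {k : Type} [Field k] (w : k[X] → ℝ) (n : ℕ) : ℝ :=
  ∑ᶠ Q ∈ {Q : k[X] | Q.Monic ∧ Irreducible Q ∧ Q.natDegree ≤ n},
    (Q.natDegree : ℝ) / (Nat.card k : ℝ) ^ Q.natDegree * w Q

/-- The finite sets of monic irreducible polynomials in `S` with product of degree at most `n`. -/
def Fam {k : Type} [Field k] (S : Set k[X]) (n : ℕ) : Set (Finset k[X]) :=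
  {J | (∀ Q ∈ J, Q.Monic ∧ Irreducible Q ∧ Q ∈ S) ∧ ∑ Q ∈ J, Q.natDegree ≤ n}

/-- DFR (200 lines; imports FE/Frob.lean; the proof of `Fr.frob` = `E_FROB` there, with sums instead of a
contradiction). The theorem of Frobenius with density. All `σ` in `𝒞` have the same order `m`; `D` is
arbitrary. Proof. `G = Gal(N / K)`. Let `D₀` be from `Fr.inertia`. As in `Fr.frob` for each `σ ∈ 𝒞` and `d ∣ m` let
`nn σ d Q` be the number of primes of degree one over `Q` of the fixed field of `σ ^ d` and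
`a σ d = μ(d) |⟨σ ^ d⟩|`. For `deg Q > D₀`, with `X`, `φ` from `Fr.exists_frob` and `Fr.count_H`:
`∑_{d ∣ m} a σ d * nn σ d Q = ∑_{w ∈ X} ind σ (φ w) * |Stab w|`, `ind σ h` is `1` if `h` generates `⟨σ⟩` and `0`
otherwise (`Fr.ind_cases`, `Fr.ind_not`, ...; prove `ind σ h ≤ 1`: if `⟨h⟩ = ⟨σ⟩` it is `ind h h = 1`, see
`Fr.ind_pow`, `Fr.moeb`). Put `w Q = (φ(m) |G|)⁻¹ ∑_{σ ∈ 𝒞} ∑_{d ∣ m} a σ d * nn σ d Q` for monic
irreducible `Q` of degree `> max D D₀` and `w Q = 0` for all other `Q`. `w Q ≥ 0`. `w Q ≤ 1`: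
`∑_{σ ∈ 𝒞} ind σ (φ w) ≤ φ(m)` (an element `h` has at most `φ(m)` powers which generate `⟨h⟩` and are of order `m`:
`IsCyclic.card_orderOf_eq_totient` in `Subgroup.zpowers h`), and
`∑_{w ∈ X} |Stab w| = |G|`: `X` is the set of all primes over `Q`, `G` acts transitively
(`Algebra.IsInvariant.exists_smul_of_under_eq`, `Fr.inv1`), and `|Stab w| |orbit of w| = |G|`. If `w Q ≠ 0` then
`ind σ (φ w) ≠ 0` for some `σ ∈ 𝒞`, `w ∈ X`, which gives `a` and the congruence as in the proof of `key` in `Fr.frob`.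
By `E_MERT` for the fixed fields `MS w n = (φ(m) |G|)⁻¹ ∑_{σ ∈ 𝒞} (∑_{d ∣ m} a σ d) n + O(1)` (the `Q` of
degree `≤ max D D₀` contribute `O(1)`), and `∑_{d ∣ m} a σ d = ∑_{d ∣ m} μ(d) m / d = φ(m)` (in `Fr.sum_pos`
the sum is `∑_h ind σ h`, the number of generators of `⟨σ⟩`). -/
def S_DFR : Prop := ∀ (k K N : Type) [Field k] [Finite k] [Field K] [Algebra k[X] K]
  [IsFractionRing k[X] K] [Field N] [Algebra K N] [Algebra k[X] N] [IsScalarTower k[X] K N]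
  [FiniteDimensional K N] [IsGalois K N] (𝒞 : Finset (N ≃ₐ[K] N)) (m D : ℕ),
  (∀ σ ∈ 𝒞, orderOf σ = m) → ∃ (w : k[X] → ℝ) (B : ℝ), (∀ Q, 0 ≤ w Q ∧ w Q ≤ 1) ∧
    (∀ n : ℕ, |MS w n - (𝒞.card : ℝ) / (Nat.card (N ≃ₐ[K] N) : ℝ) * n| ≤ B) ∧
    ∀ Q : k[X], w Q ≠ 0 → Q.Monic ∧ Irreducible Q ∧ D < Q.natDegree ∧
      ∃ σ ∈ 𝒞, ∃ (a : ℕ) (v : HeightOneSpectrum (integralClosure k[X] N)),
        algebraMap k[X] (integralClosure k[X] N) Q ∈ v.asIdeal ∧ a.Coprime (orderOf σ) ∧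
        ∀ x y : integralClosure k[X] N, (σ ^ a) (x : N) = y →
          y - x ^ (Nat.card k ^ Q.natDegree) ∈ v.asIdeal

/-- CYC (80 lines; group theory in the splitting field). Data: `N` a Galois extension with
`f = ∏ (X - σ ^ j x)`, `j < n = 2 g + 1`, over `N`, and `N` generated by the roots. There is a set `𝒞` of
elements of the same order as `σ`, with at least `|G| / n` elements, such that `f = ∏ (X - τ ^ j y)` for some
`y` for each `τ` in `𝒞`. Proof: `𝒞` the conjugacy class of `σ`, `|𝒞| |C_G(σ)| = |G|`; an element of the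
centralizer `C_G(σ)` is determined by the image of `x` (it commutes with `σ`, so the images of all `σ ^ j x`
are determined, and these generate `N`), which is one of the `n` roots of `f`: `|C_G(σ)| ≤ n`. For
`τ = h σ h⁻¹` take `y = h x`, `τ ^ j y = h (σ ^ j x)`, and `h` fixes the coefficients of `f`. -/
def S_CYC : Prop := ∀ (g : ℕ) (k K N : Type) [Field k] [Field K] [Algebra k[X] K]
  [Field N] [Algebra K N] [FiniteDimensional K N] [IsGalois K N] (f : k[X][X]) (σ : N ≃ₐ[K] N)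
  (x : N), f.map ((algebraMap K N).comp (algebraMap k[X] K)) =
    ∏ j ∈ Finset.range (2 * g + 1), (X - C ((σ ^ j) x)) → (σ ^ (2 * g + 1)) x = x →
  Function.Injective (fun j : Fin (2 * g + 1) => (σ ^ (j : ℕ)) x) →
  IntermediateField.adjoin K (Set.range fun j : ℕ => (σ ^ j) x) = ⊤ →
  ∃ 𝒞 : Finset (N ≃ₐ[K] N), Nat.card (N ≃ₐ[K] N) ≤ (2 * g + 1) * 𝒞.card ∧
    ∀ τ ∈ 𝒞, orderOf τ = orderOf σ ∧ ∃ y : N, (τ ^ (2 * g + 1)) y = y ∧
      f.map ((algebraMap K N).comp (algebraMap k[X] K)) =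
        ∏ j ∈ Finset.range (2 * g + 1), (X - C ((τ ^ j) y))

/-- APP (150 lines; imports FE/MainE.lean), uses S_DFR, S_CYC. (1) `w`: from `F_GALN` (`galn odd` as in
`MainE.prT`, with `E = K`, `hunrK` of `MainE.exists_prime`) take `N`, `σ`, `x`; replace `N` by the subfield
`N'` generated by the roots `σ ^ j x` (the splitting field of `f`, normal), `σ` by its restriction
(`AlgEquiv.restrictNormal`); S_CYC and S_DFR give `w` with density `|𝒞| / |G| ≥ 1 / (2 g + 1)`;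
`DelA.core` for the finitely many `τ ∈ 𝒞` (with `D` in S_DFR the maximum of the `M` and the degrees of the elements of
`T`) shows that `f` is irreducible modulo the `Q` with `w Q ≠ 0`. (2) `w₁`: as in `MainE.exists_prime` and
`t_del` (FE/Del.lean): `E` from `cyc` for `insert (C a) T`, `N`, `σ`, `x`, `κ` from `galn odd`, S_DFR with `𝒞 = {σ}`,
`β = 1 / |G|`; `splits_part`, `DelA.core`, `t_SPL`, `t_QR` as there. -/
def S_APP : Prop := ∀ (g : ℕ) (k K : Type) [Field k] [Finite k] [Field K] [Algebra k[X] K]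
  [IsFractionRing k[X] K] (f : k[X][X]) (P₀ : k[X]), Hyp K g f P₀ → ∀ T : Finset k[X],
  (∀ P ∈ T, P.Monic ∧ Irreducible P ∧ ¬ P₀ ∣ P) →
  ∃ (w w₁ : k[X] → ℝ) (β B : ℝ), 0 < β ∧ (∀ Q, 0 ≤ w Q ∧ w Q ≤ 1) ∧ (∀ Q, 0 ≤ w₁ Q ∧ w₁ Q ≤ 1) ∧
    (∀ n : ℕ, (2 * g + 1 : ℝ)⁻¹ * n - B ≤ MS w n) ∧ (∀ n : ℕ, |MS w₁ n - β * n| ≤ B) ∧
    (∀ Q, w Q ≠ 0 → Q.Monic ∧ Irreducible Q ∧
      Irreducible (f.map (Ideal.Quotient.mk (Ideal.span {Q}))) ∧ ∀ P ∈ T, ¬ P ∣ Q) ∧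
    ∀ Q, w₁ Q ≠ 0 → Q.Monic ∧ Irreducible Q ∧ Even Q.natDegree ∧
      Irreducible (f.map (Ideal.Quotient.mk (Ideal.span {Q}))) ∧
      ∀ P ∈ T, ¬ P ∣ Q ∧ ∃ z : k[X], P ∣ Q - z ^ 2

/-- CNA (200 lines; Mathlib only). `A(n) = ∑_{J ∈ Fam S n} q ^ (- deg J) ≥ c n ^ α`. Proof. Let
`deg J = ∑_{Q ∈ J} deg Q`, `I(n) = ∑_{m < n} A(m) = ∑_{J ∈ Fam S n} (n - deg J) q ^ (- deg J)`, `A(0) = 1`. Then
`n A(n) - I(n) = ∑_J deg J q ^ (- deg J) = ∑_J ∑_{Q ∈ J} deg Q q ^ (- deg J)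
= ∑_{J'} q ^ (- deg J') ∑_{Q ∉ J', deg Q ≤ n - deg J'} deg Q / q ^ deg Q` (`J = J' ∪ {Q}`; `J'` in `Fam S n`,
`Q` in `S`) `≥ ∑_{J'} q ^ (- deg J') (α (n - deg J') - B - ∑_{Q ∈ J'} deg Q / q ^ deg Q)
≥ α I(n) - B A(n) - 2 A(n)`, because (again `J' = J'' ∪ {Q}`)
`∑_{J'} q ^ (- deg J') ∑_{Q ∈ J'} deg Q / q ^ deg Q ≤ (∑_Q deg Q / q ^ (2 deg Q)) A(n) ≤ 2 A(n)`, as there are at
most `q ^ m` monic polynomials of degree `m` and `∑ m / q ^ m ≤ ∑ m / 2 ^ m = 2`. So with `b = B + 2`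
(wlog `B ≥ 0`) and `p = 1 + α`: `(n + b) A(n) ≥ p I(n)`, `I(n + 1) = I(n) + A(n) ≥ I(n) (1 + p / (n + b))`, `I(1) = 1`. By
induction `I(n) ≥ c₀ (n + b + p) ^ p` for `n ≥ 1`, with `c₀ = (1 + b + p) ^ (-p)`, since
`((n + 1 + b + p) / (n + b + p)) ^ p ≤ exp (p / (n + b + p)) ≤ (1 - p / (n + b + p))⁻¹ = 1 + p / (n + b)`. Hence
`A(n) ≥ p I(n) / (n + b) ≥ c₀ (n + b + p) ^ p / (n + b) ≥ c n ^ α`. -/
def S_CNA : Prop := ∀ (k : Type) [Field k] [Finite k] (S : Set k[X]) (α B : ℝ), 0 < α →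
  (∀ n : ℕ, α * n - B ≤ ∑ᶠ Q ∈ {Q : k[X] | Q.Monic ∧ Irreducible Q ∧ Q.natDegree ≤ n ∧ Q ∈ S},
    (Q.natDegree : ℝ) / (Nat.card k : ℝ) ^ Q.natDegree) →
  ∃ c : ℝ, 0 < c ∧ ∀ n : ℕ, 1 ≤ n → c * (n : ℝ) ^ α ≤
    ∑ᶠ J ∈ Fam S n, ((Nat.card k : ℝ) ^ (∑ Q ∈ J, Q.natDegree))⁻¹

/-- CNW (60 lines; Mathlib only). Many primes in short windows of degrees. Proof: take `C` with
`β C - 2 B ≥ 1`, `C ≥ 1`. `∑_{m < deg Q ≤ m + C} w₁ Q deg Q / q ^ deg Q = MS w₁ (m + C) - MS w₁ m ≥ β C - 2 B ≥ 1`,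
each term with `w₁ Q ≠ 0` is at most `(m + C) / q ^ m`. -/
def S_CNW : Prop := ∀ (k : Type) [Field k] [Finite k] (w₁ : k[X] → ℝ) (β B : ℝ), 0 < β →
  (∀ Q, 0 ≤ w₁ Q ∧ w₁ Q ≤ 1) → (∀ n : ℕ, |MS w₁ n - β * n| ≤ B) →
  ∃ C : ℕ, 0 < C ∧ ∀ m : ℕ, (Nat.card k : ℝ) ^ m / (m + C : ℝ) ≤
    (({Q : k[X] | Q.Monic ∧ Irreducible Q ∧ m < Q.natDegree ∧ Q.natDegree ≤ m + C ∧
      w₁ Q ≠ 0}.ncard : ℕ) : ℝ)

/-- CNI (200 lines; Mathlib only), uses S_CNA, S_CNW. The set of all `J` counted here is finite (polynomials of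
bounded degree). Proof. For `J` put `κ J = ∑_{Q ∈ J} κ Q`. Let `Γ'` be the set of the `κ J`, `J` a finite set of monic
irreducible `Q` with `w Q ≠ 0`; for `γ ∈ Γ'` choose such a set `R γ` with `κ (R γ) = γ`, let `R` be the union of the
`R γ`, `r` the sum of the degrees of all elements of `R`. `S = {Q | w Q ≠ 0, Q ∉ R}`:
`∑_{Q ∈ S, deg Q ≤ n} deg Q / q ^ deg Q ≥ MS w n - O(1) ≥ α n - B'` (as `w ≤ 1`), so S_CNA applies to `S`, with `c`. Let
`C` be from S_CNW. Let `N ≥ 4 (C + r + 1)`, `L = N / 4`. For `J₁ ∈ Fam S L` let `γ = κ J₁`,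
`m = N - C - deg J₁ - deg (R γ) ≥ N / 2`. For all `Q` with `w₁ Q ≠ 0`, `m < deg Q ≤ m + C` the set
`J = J₁ ∪ R γ ∪ {Q}` (disjoint union) is counted: `κ J = γ + γ + 0 = 0`, `deg J ≤ N`. The map `(J₁, Q) ↦ J` is injective:
`Q` is the element of `J` of degree `> N / 2`, `J₁` the set of the other elements which are not in `R`. For given
`J₁` there are at least `q ^ m / (m + C) ≥ q ^ (N - C - r) q ^ (- deg J₁) / N` such `Q`. So the number of `J` is at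
least `q ^ (N - C - r) / N * ∑_{J₁ ∈ Fam S L} q ^ (- deg J₁) ≥ c q ^ (N - C - r) L ^ α / N`, and `L ≥ N / 8`. -/
def S_CNI : Prop := ∀ (k : Type) [Field k] [Finite k] (w w₁ : k[X] → ℝ) (α β B : ℝ), 0 < α →
  0 < β → (∀ Q, 0 ≤ w Q ∧ w Q ≤ 1) → (∀ Q, 0 ≤ w₁ Q ∧ w₁ Q ≤ 1) →
  (∀ n : ℕ, α * n - B ≤ MS w n) → (∀ n : ℕ, |MS w₁ n - β * n| ≤ B) →
  ∀ (Γ : Type) [AddCommGroup Γ] [Finite Γ], (∀ γ : Γ, γ + γ = 0) → ∀ κ : k[X] → Γ,
  (∀ Q, w₁ Q ≠ 0 → κ Q = 0) → ∃ (c : ℝ) (N₀ : ℕ), 0 < c ∧ ∀ N : ℕ, N₀ ≤ N →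
    {J : Finset k[X] | (∀ Q ∈ J, Q.Monic ∧ Irreducible Q ∧ (w Q ≠ 0 ∨ w₁ Q ≠ 0)) ∧
      ∑ Q ∈ J, κ Q = 0 ∧ ∑ Q ∈ J, Q.natDegree ≤ N}.Finite ∧
    c * (Nat.card k : ℝ) ^ N * (N : ℝ) ^ (α - 1) ≤
    (({J : Finset k[X] | (∀ Q ∈ J, Q.Monic ∧ Irreducible Q ∧ (w Q ≠ 0 ∨ w₁ Q ≠ 0)) ∧
      ∑ Q ∈ J, κ Q = 0 ∧ ∑ Q ∈ J, Q.natDegree ≤ N}.ncard : ℕ) : ℝ)

open Classical in
/-- SQC (60 lines; Mathlib only). A product of an even number of nonsquares and of squares modulo `P` is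
a square modulo `P`. Proof: `F = k[X] / P` is a finite field; `quadraticChar F` is multiplicative (characteristic
not two; in characteristic two everything is a square), it is `1` for nonzero squares and `-1` for nonsquares. -/
def S_SQC : Prop := ∀ (k : Type) [Field k] [Finite k] (P : k[X]) (J : Finset k[X]),
  Irreducible P → (∀ Q ∈ J, ¬ P ∣ Q) →
  ∑ Q ∈ J, (if ∃ z : k[X], P ∣ Q - z ^ 2 then (0 : ZMod 2) else 1) = 0 →
  ∃ z : k[X], P ∣ (∏ Q ∈ J, Q) - z ^ 2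

end Pool.Agent.Helper28H.QT
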