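import Pool.Agent.Helper28H.FE.Frob
import Pool.Agent.Helper28H.FE.Mert
import Pool.Agent.Helper28H.QT.Stm

/-!
# Project QT (helper28), piece DFR (helper23): the theorem of Frobenius with density
-/

set_option autoImplicit false

open Polynomial IsDedekindDomain
open scoped Classical Pointwise

namespace Pool.Agent.Helper28H.QT

open Pool.Agent.Helper28H.FE Pool.Agent.Helper28H.FE.Fr

namespace DFRP

section grp

variable {G : Type} [Group G] [Finite G]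

theorem ind_nonneg (σ g : G) : 0 ≤ ind σ g := by
  rcases ind_cases σ g with h | ⟨h, _⟩
  · rw [h]
  · rw [h]; exact zero_le_one

/-- an element of a group has at most `φ(m)` generators of order `m` -/
theorem sum_ind_le (𝒞 : Finset G) (m : ℕ) (h𝒞 : ∀ σ ∈ 𝒞, orderOf σ = m) (h : G) :
    ∑ σ ∈ 𝒞, ind σ h ≤ (m.totient : ℤ) := by
  haveI : Fintype G := Fintype.ofFinite G
  have h1 : ∑ σ ∈ 𝒞, ind σ h = ((𝒞.filter fun σ => ind σ h = 1).card : ℤ) := by
    rw [Finset.card_filter, Nat.cast_sum]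
    refine Finset.sum_congr rfl fun σ _ => ?_
    rcases ind_cases σ h with h2 | ⟨h2, -⟩
    · rw [h2]; simp
    · rw [h2]; simp
  rw [h1, Nat.cast_le]
  by_cases hne : (𝒞.filter fun σ => ind σ h = 1) = ∅
  · rw [hne]; simp
  obtain ⟨σ₀, hσ₀⟩ := Finset.nonempty_iff_ne_empty.2 hne
  have key : ∀ σ ∈ 𝒞.filter fun σ => ind σ h = 1, σ ∈ Subgroup.zpowers h ∧ orderOf h = m := by
    intro σ hσ
    obtain ⟨hσ1, hσ2⟩ := Finset.mem_filter.1 hσ
    rcases ind_cases σ h with h3 | ⟨-, a, ha, hh⟩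
    · rw [h3] at hσ2
      exact absurd hσ2 zero_ne_one
    · have h4 : orderOf h = orderOf σ := by
        rw [hh]
        exact ha.symm.orderOf_pow
      obtain ⟨b, hb⟩ := exists_pow_eq_self_of_coprime ha
      refine ⟨?_, h4.trans (h𝒞 σ hσ1)⟩
      rw [hh]
      exact ⟨b, by simpa using hb⟩
  have hm : orderOf h = m := (key σ₀ hσ₀).2
  have h5 := IsCyclic.card_orderOf_eq_totient (α := Subgroup.zpowers h) (d := m)
    (by rw [← Nat.card_eq_fintype_card, Nat.card_zpowers, hm])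
  have hsub : (𝒞.filter fun σ => ind σ h = 1) ⊆
      (Finset.univ.filter fun x : Subgroup.zpowers h => orderOf x = m).image Subtype.val := by
    intro σ hσ
    obtain ⟨h6, -⟩ := key σ hσ
    rw [Finset.mem_image]
    refine ⟨⟨σ, h6⟩, Finset.mem_filter.2 ⟨Finset.mem_univ _, ?_⟩, rfl⟩
    rw [Subgroup.orderOf_mk]
    exact h𝒞 σ (Finset.mem_filter.1 hσ).1
  refine (Finset.card_le_card hsub).trans (Finset.card_image_le.trans ?_)
  refine le_of_eq ?_
  rw [← h5]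

/-- the sum of the coefficients -/
theorem sum_a (σ : G) : ∑ d ∈ (orderOf σ).divisors,
    ArithmeticFunction.moebius d * (Nat.card (Subgroup.zpowers (σ ^ d)) : ℤ) =
      ((orderOf σ).totient : ℤ) := by
  have hpos : 0 < orderOf σ := orderOf_pos σ
  have h1 := (ArithmeticFunction.sum_eq_iff_sum_mul_moebius_eq (R := ℤ)
    (f := fun n => (n.totient : ℤ)) (g := fun n => (n : ℤ))).1
    (fun n _ => by exact_mod_cast Nat.sum_totient n) (orderOf σ) hpos
  simp only [Int.cast_id] at h1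
  rw [Nat.sum_divisorsAntidiagonal
    (f := fun x y => ArithmeticFunction.moebius x * (y : ℤ))] at h1
  rw [← h1]
  refine Finset.sum_congr rfl fun d hd => ?_
  have hd' := Nat.dvd_of_mem_divisors hd
  have hd0 : d ≠ 0 := (Nat.pos_of_mem_divisors hd).ne'
  rw [Nat.card_zpowers, orderOf_pow_of_dvd hd0 hd']

end grp

section setup

variable {k K N : Type} [Field k] [Field K] [Algebra k[X] K]
  [IsFractionRing k[X] K] [Field N] [Algebra K N] [Algebra k[X] N] [IsScalarTower k[X] K N]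
  [FiniteDimensional K N] [IsGalois K N]

attribute [local instance] Fr.comm1 Fr.dd

/-- the number of the primes of degree one of a fixed field -/
noncomputable def nn (k : Type) [Field k] {K N : Type} [Field K] [Algebra k[X] K]
    [IsFractionRing k[X] K] [Field N] [Algebra K N] [Algebra k[X] N] [IsScalarTower k[X] K N]
    [FiniteDimensional K N] [IsGalois K N] (σ : N ≃ₐ[K] N) (d : ℕ) (Q : k[X]) : ℝ :=
  ({v : HeightOneSpectrum (integralClosure k[X]
        (IntermediateField.fixedField (Subgroup.zpowers (σ ^ d)))) | One Q v}.ncard : ℝ)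

/-- the coefficients -/
noncomputable def aa {K N : Type} [Field K] [Field N] [Algebra K N] (σ : N ≃ₐ[K] N) (d : ℕ) : ℝ :=
  ((ArithmeticFunction.moebius d * (Nat.card (Subgroup.zpowers (σ ^ d)) : ℤ) : ℤ) : ℝ)

/-- the sum of the orders of the decomposition groups -/
theorem sum_stab [Finite k] (Q : k[X]) (hQ : Irreducible Q)
    (X : Finset (Ideal (integralClosure k[X] N)))
    (hX : ∀ w, w ∈ X ↔ w.IsPrime ∧ w.under k[X] = Ideal.span {Q})
    (hI : ∀ w ∈ X, ∀ g : N ≃ₐ[K] N, (∀ x : integralClosure k[X] N, g • x - x ∈ w) → g = 1) :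
    ∑ w ∈ X, Nat.card (MulAction.stabilizer (N ≃ₐ[K] N) w) ≤ Nat.card (N ≃ₐ[K] N) := by
  rcases X.eq_empty_or_nonempty with rfl | ⟨w₀, hw₀⟩
  · simp
  obtain ⟨h1, h2⟩ := (hX w₀).1 hw₀
  haveI := h1
  haveI := inv1 (k := k) (K := K) (N := N)
  haveI : Algebra.IsInvariant k[X] (integralClosure k[X] N) (⊤ : Subgroup (N ≃ₐ[K] N)) :=
    ⟨fun b hb => Algebra.IsInvariant.isInvariant (G := N ≃ₐ[K] N) b
      (fun g => hb ⟨g, Subgroup.mem_top g⟩)⟩
  have h3 := fibre (A := k[X]) (OH := k[X]) (ON := integralClosure k[X] N) (G := N ≃ₐ[K] N) ⊤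
    (Ideal.span {Q}) (fun y => ⟨y, by simp⟩) w₀ h2 X hX hI
  rw [h3]
  exact (Nat.card_congr Subgroup.topEquiv.toEquiv).le

/-- the value at a prime -/
theorem perQ [Finite k] (𝒞 : Finset (N ≃ₐ[K] N)) (m : ℕ) (h𝒞 : ∀ σ ∈ 𝒞, orderOf σ = m)
    (Q : k[X]) (hQ : Irreducible Q)
    (X : Finset (Ideal (integralClosure k[X] N)))
    (hX : ∀ w, w ∈ X ↔ w.IsPrime ∧ w.under k[X] = Ideal.span {Q})
    (hI : ∀ w ∈ X, ∀ g : N ≃ₐ[K] N, (∀ x : integralClosure k[X] N, g • x - x ∈ w) → g = 1)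
    (φ : Ideal (integralClosure k[X] N) → (N ≃ₐ[K] N))
    (hφ : ∀ w ∈ X, ∀ x : integralClosure k[X] N,
      φ w • x - x ^ Nat.card (k[X] ⧸ Ideal.span {Q}) ∈ w) :
    ∑ σ ∈ 𝒞, ∑ d ∈ m.divisors, aa σ d * nn k σ d Q =
      ∑ w ∈ X, ((∑ σ ∈ 𝒞, ind σ (φ w) : ℤ) : ℝ) *
        (Nat.card (MulAction.stabilizer (N ≃ₐ[K] N) w) : ℝ) := by
  have h2 : ∀ (σ : N ≃ₐ[K] N) (d : ℕ), (Nat.card (Subgroup.zpowers (σ ^ d)) : ℝ) * nn k σ d Q =
      ∑ w ∈ X, (if φ w ∈ Subgroup.zpowers (σ ^ d) then 1 else 0 : ℝ) *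
        (Nat.card (MulAction.stabilizer (N ≃ₐ[K] N) w) : ℝ) := by
    intro σ d
    have h3 := count_H (Subgroup.zpowers (σ ^ d)) Q hQ X hX hI φ hφ
    rw [nn, ← Nat.cast_mul, ← h3, Nat.cast_sum, Finset.sum_filter]
    refine Finset.sum_congr rfl fun w _ => ?_
    split_ifs
    · rw [one_mul]
    · rw [zero_mul]
  calc ∑ σ ∈ 𝒞, ∑ d ∈ m.divisors, aa σ d * nn k σ d Q
      = ∑ σ ∈ 𝒞, ∑ w ∈ X, (ind σ (φ w) : ℝ) *
        (Nat.card (MulAction.stabilizer (N ≃ₐ[K] N) w) : ℝ) := by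
        refine Finset.sum_congr rfl fun σ hσ => ?_
        calc ∑ d ∈ m.divisors, aa σ d * nn k σ d Q
            = ∑ d ∈ m.divisors, (ArithmeticFunction.moebius d : ℝ) *
              ∑ w ∈ X, (if φ w ∈ Subgroup.zpowers (σ ^ d) then 1 else 0 : ℝ) *
              (Nat.card (MulAction.stabilizer (N ≃ₐ[K] N) w) : ℝ) := by
              refine Finset.sum_congr rfl fun d _ => ?_
              rw [aa, ← h2]
              push_cast
              ring
          _ = ∑ w ∈ X, (ind σ (φ w) : ℝ) *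
              (Nat.card (MulAction.stabilizer (N ≃ₐ[K] N) w) : ℝ) := by
              simp only [Finset.mul_sum]
              rw [Finset.sum_comm]
              refine Finset.sum_congr rfl fun w _ => ?_
              rw [ind, h𝒞 σ hσ]
              push_cast
              rw [Finset.sum_mul]
              refine Finset.sum_congr rfl fun d _ => ?_
              ring
    _ = _ := by
        rw [Finset.sum_comm]
        refine Finset.sum_congr rfl fun w _ => ?_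
        rw [Int.cast_sum, Finset.sum_mul]

/-- all properties of the sum at a prime of large degree -/
theorem props [Finite k] (𝒞 : Finset (N ≃ₐ[K] N)) (m : ℕ) (h𝒞 : ∀ σ ∈ 𝒞, orderOf σ = m)
    (Q : k[X]) (hQ : Irreducible Q)
    (hI : ∀ w : Ideal (integralClosure k[X] N), w.under k[X] = Ideal.span {Q} →
      ∀ g : N ≃ₐ[K] N, (∀ x : integralClosure k[X] N, g • x - x ∈ w) → g = 1) :
    0 ≤ ∑ σ ∈ 𝒞, ∑ d ∈ m.divisors, aa σ d * nn k σ d Q ∧
    ∑ σ ∈ 𝒞, ∑ d ∈ m.divisors, aa σ d * nn k σ d Q ≤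
      (m.totient : ℝ) * (Nat.card (N ≃ₐ[K] N) : ℝ) ∧
    (∑ σ ∈ 𝒞, ∑ d ∈ m.divisors, aa σ d * nn k σ d Q ≠ 0 →
      ∃ σ ∈ 𝒞, ∃ (a : ℕ) (v : HeightOneSpectrum (integralClosure k[X] N)),
        algebraMap k[X] (integralClosure k[X] N) Q ∈ v.asIdeal ∧ a.Coprime (orderOf σ) ∧
        ∀ x y : integralClosure k[X] N, (σ ^ a) (x : N) = y →
          y - x ^ (Nat.card k ^ Q.natDegree) ∈ v.asIdeal) := by
  obtain ⟨X, φ, hX, hφ⟩ := exists_frob (k := k) (K := K) (N := N) Q hQ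
  obtain ⟨-, hcard⟩ := card_quot hQ.ne_zero
  have hIX : ∀ w ∈ X, ∀ g : N ≃ₐ[K] N, (∀ x : integralClosure k[X] N, g • x - x ∈ w) → g = 1 :=
    fun w hw => hI w ((hX w).1 hw).2
  rw [perQ 𝒞 m h𝒞 Q hQ X hX hIX φ hφ]
  refine ⟨?_, ?_, ?_⟩
  · refine Finset.sum_nonneg fun w _ => mul_nonneg ?_ (Nat.cast_nonneg _)
    exact_mod_cast Finset.sum_nonneg fun σ _ => ind_nonneg σ (φ w)
  · calc ∑ w ∈ X, ((∑ σ ∈ 𝒞, ind σ (φ w) : ℤ) : ℝ) *
          (Nat.card (MulAction.stabilizer (N ≃ₐ[K] N) w) : ℝ)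
        ≤ ∑ w ∈ X, (m.totient : ℝ) * (Nat.card (MulAction.stabilizer (N ≃ₐ[K] N) w) : ℝ) := by
          refine Finset.sum_le_sum fun w _ => mul_le_mul_of_nonneg_right ?_ (Nat.cast_nonneg _)
          exact_mod_cast sum_ind_le 𝒞 m h𝒞 (φ w)
      _ = (m.totient : ℝ) * ((∑ w ∈ X, Nat.card (MulAction.stabilizer (N ≃ₐ[K] N) w) : ℕ) : ℝ) := by
          rw [← Finset.mul_sum, Nat.cast_sum]
      _ ≤ (m.totient : ℝ) * (Nat.card (N ≃ₐ[K] N) : ℝ) :=
          mul_le_mul_of_nonneg_left (Nat.cast_le.2 (sum_stab Q hQ X hX hIX)) (Nat.cast_nonneg _)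
  · intro hne
    obtain ⟨w, hw, hw2⟩ := Finset.exists_ne_zero_of_sum_ne_zero hne
    have h3 : (∑ σ ∈ 𝒞, ind σ (φ w) : ℤ) ≠ 0 := by
      intro h0
      rw [h0, Int.cast_zero, zero_mul] at hw2
      exact hw2 rfl
    obtain ⟨σ, hσ, h4⟩ := Finset.exists_ne_zero_of_sum_ne_zero h3
    rcases ind_cases σ (φ w) with h | ⟨-, b, hb, hbφ⟩
    · exact absurd h h4
    obtain ⟨hwp, hwu⟩ := (hX w).1 hw
    have hQw : algebraMap k[X] (integralClosure k[X] N) Q ∈ w := by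
      have : Q ∈ w.under k[X] := by
        rw [hwu]
        exact Ideal.mem_span_singleton_self Q
      exact this
    have hwb : w ≠ ⊥ := by
      rintro rfl
      rw [Ideal.mem_bot] at hQw
      have h7 : algebraMap k[X] N Q = 0 := congrArg Subtype.val hQw
      rw [IsScalarTower.algebraMap_apply k[X] K N, map_eq_zero,
        IsFractionRing.to_map_eq_zero_iff] at h7
      exact hQ.ne_zero h7
    refine ⟨σ, hσ, b, ⟨w, hwp, hwb⟩, hQw, hb, ?_⟩
    intro x y hxy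
    have h2 := hφ w hw x
    rw [hcard] at h2
    have h3 : φ w • x = y := by
      apply Subtype.ext
      rw [hbφ]
      exact hxy
    rw [h3] at h2
    exact h2

end setup

end DFRP

open DFRP in
attribute [local instance] Fr.comm1 Fr.dd in
/-- The theorem of Frobenius with density, from the theorem of Mertens. -/
theorem dfr (hM : E_MERT) : S_DFR := by
  intro k K N _ _ _ _ _ _ _ _ _ _ _ 𝒞 m D h𝒞
  obtain ⟨D₀, hD₀⟩ := inertia (k := k) (K := K) (N := N)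
  obtain ⟨T, hT⟩ : ∃ T : k[X] → ℝ, ∀ Q, T Q =
      ∑ σ ∈ 𝒞, ∑ d ∈ m.divisors, aa σ d * nn k σ d Q := ⟨_, fun Q => rfl⟩
  have hprops : ∀ Q : k[X], Irreducible Q → max D D₀ < Q.natDegree →
      0 ≤ T Q ∧ T Q ≤ (m.totient : ℝ) * (Nat.card (N ≃ₐ[K] N) : ℝ) ∧ (T Q ≠ 0 →
      ∃ σ ∈ 𝒞, ∃ (a : ℕ) (v : HeightOneSpectrum (integralClosure k[X] N)),
        algebraMap k[X] (integralClosure k[X] N) Q ∈ v.asIdeal ∧ a.Coprime (orderOf σ) ∧
        ∀ x y : integralClosure k[X] N, (σ ^ a) (x : N) = y →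
          y - x ^ (Nat.card k ^ Q.natDegree) ∈ v.asIdeal) := by
    intro Q hQ hdeg
    rw [hT]
    exact props 𝒞 m h𝒞 Q hQ (hD₀ Q hQ ((le_max_right _ _).trans_lt hdeg))
  obtain ⟨c, hc⟩ : ∃ c : ℝ, c = ((m.totient : ℝ) * (Nat.card (N ≃ₐ[K] N) : ℝ))⁻¹ := ⟨_, rfl⟩
  have hc0 : 0 ≤ c := by rw [hc]; positivity
  obtain ⟨w, hw⟩ : ∃ w : k[X] → ℝ, ∀ Q, w Q =
      if Q.Monic ∧ Irreducible Q ∧ max D D₀ < Q.natDegree then c * T Q else 0 :=
    ⟨_, fun Q => rfl⟩
  -- the theorem of Mertens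
  obtain ⟨F, hF⟩ : ∃ F : (N ≃ₐ[K] N) → ℕ → ℕ → ℝ, ∀ σ d n, F σ d n =
      ∑ᶠ Q ∈ {Q : k[X] | Q.Monic ∧ Irreducible Q ∧ Q.natDegree ≤ n},
        (Q.natDegree : ℝ) / (Nat.card k : ℝ) ^ Q.natDegree * nn k σ d Q :=
    ⟨_, fun σ d n => rfl⟩
  have hMd : ∀ (σ : N ≃ₐ[K] N) (d : ℕ), ∃ Bd : ℝ, ∀ n : ℕ, |F σ d n - n| ≤ Bd := by
    intro σ d
    haveI : IsFractionRing (integralClosure k[X]
      (IntermediateField.fixedField (Subgroup.zpowers (σ ^ d))))
      (IntermediateField.fixedField (Subgroup.zpowers (σ ^ d))) :=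
      integralClosure.isFractionRing_of_finite_extension K _
    obtain ⟨Bd, hBd⟩ := hM k K (IntermediateField.fixedField (Subgroup.zpowers (σ ^ d)))
      (integralClosure k[X] (IntermediateField.fixedField (Subgroup.zpowers (σ ^ d))))
    refine ⟨Bd, fun n => ?_⟩
    have := hBd n
    rw [hF]
    exact this
  choose Bd hBd using hMd
  obtain ⟨u, hu⟩ : ∃ u : k[X] → ℝ, ∀ Q, u Q =
      (Q.natDegree : ℝ) / (Nat.card k : ℝ) ^ Q.natDegree := ⟨_, fun Q => rfl⟩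
  have hu0 : ∀ Q, 0 ≤ u Q := fun Q => by rw [hu]; positivity
  have hFs : ∀ σ d n, F σ d n = ∑ Q ∈ (fin_deg (k := k) n).toFinset, u Q * nn k σ d Q := by
    intro σ d n
    rw [hF, finsum_mem_eq_finite_toFinset_sum _ (fin_deg (k := k) n)]
    simp only [hu]
  have hMSs : ∀ n, MS w n = ∑ Q ∈ (fin_deg (k := k) n).toFinset, u Q * w Q := by
    intro n
    rw [MS, finsum_mem_eq_finite_toFinset_sum _ (fin_deg (k := k) n)]
    simp only [hu]
  have hsum : ∀ n : ℕ, ∑ σ ∈ 𝒞, ∑ d ∈ m.divisors, aa σ d * F σ d n =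
      ∑ Q ∈ (fin_deg (k := k) n).toFinset, u Q * T Q := by
    intro n
    simp only [hFs, hT, Finset.mul_sum]
    have h1 : ∀ σ ∈ 𝒞, ∑ d ∈ m.divisors, ∑ Q ∈ (fin_deg (k := k) n).toFinset,
        aa σ d * (u Q * nn k σ d Q) = ∑ Q ∈ (fin_deg (k := k) n).toFinset,
        ∑ d ∈ m.divisors, u Q * (aa σ d * nn k σ d Q) := by
      intro σ _
      rw [Finset.sum_comm]
      refine Finset.sum_congr rfl fun Q _ => Finset.sum_congr rfl fun d _ => ?_
      ring
    rw [Finset.sum_congr rfl h1, Finset.sum_comm]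
  -- the small degrees
  obtain ⟨E₀, hE₀⟩ : ∃ E₀ : ℝ, E₀ = ∑ Q ∈ (fin_deg (k := k) (max D D₀)).toFinset, |u Q * T Q| :=
    ⟨_, rfl⟩
  have hdiff : ∀ n : ℕ, |MS w n - c * ∑ σ ∈ 𝒞, ∑ d ∈ m.divisors, aa σ d * F σ d n| ≤ c * E₀ := by
    intro n
    rw [hsum, hMSs, Finset.mul_sum, ← Finset.sum_sub_distrib]
    have h1 : ∀ Q ∈ (fin_deg (k := k) n).toFinset, u Q * w Q - c * (u Q * T Q) =
        if Q.natDegree ≤ max D D₀ then - (c * (u Q * T Q)) else 0 := by
      intro Q hQ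
      rw [Set.Finite.mem_toFinset] at hQ
      rw [hw]
      by_cases h2 : Q.natDegree ≤ max D D₀
      · rw [if_neg (fun h => absurd h.2.2 (not_lt.2 h2)), if_pos h2]
        ring
      · rw [if_pos ⟨hQ.1, hQ.2.1, not_le.1 h2⟩, if_neg h2]
        ring
    rw [Finset.sum_congr rfl h1, ← Finset.sum_filter, hE₀, Finset.mul_sum]
    refine (Finset.abs_sum_le_sum_abs _ _).trans ?_
    refine (Finset.sum_le_sum_of_subset_of_nonneg (t := (fin_deg (k := k) (max D D₀)).toFinset)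
      ?_ (fun _ _ _ => abs_nonneg _)).trans (le_of_eq ?_)
    · intro Q hQ
      obtain ⟨h2, h3⟩ := Finset.mem_filter.1 hQ
      rw [Set.Finite.mem_toFinset] at h2 ⊢
      exact ⟨h2.1, h2.2.1, h3⟩
    · refine Finset.sum_congr rfl fun Q _ => ?_
      rw [abs_neg, abs_mul, abs_of_nonneg hc0]
  -- the main term
  have hmain : ∀ n : ℕ, |c * ∑ σ ∈ 𝒞, ∑ d ∈ m.divisors, aa σ d * F σ d n -
      (𝒞.card : ℝ) / (Nat.card (N ≃ₐ[K] N) : ℝ) * n| ≤
      c * ∑ σ ∈ 𝒞, ∑ d ∈ m.divisors, |aa σ d| * Bd σ d := by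
    intro n
    have hG : (0 : ℝ) < Nat.card (N ≃ₐ[K] N) := by exact_mod_cast Nat.card_pos
    have h1 : (𝒞.card : ℝ) / (Nat.card (N ≃ₐ[K] N) : ℝ) * n =
        c * ∑ σ ∈ 𝒞, ∑ d ∈ m.divisors, aa σ d * n := by
      have h2 : ∀ σ ∈ 𝒞, ∑ d ∈ m.divisors, aa σ d * (n : ℝ) = (m.totient : ℝ) * n := by
        intro σ hσ
        rw [← Finset.sum_mul]
        congr 1
        have h3 := sum_a σ
        rw [h𝒞 σ hσ] at h3
        simp only [aa]
        rw [← Int.cast_sum, h3, Int.cast_natCast]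
      rw [Finset.sum_congr rfl h2, Finset.sum_const, nsmul_eq_mul]
      rcases 𝒞.eq_empty_or_nonempty with h0 | ⟨σ, hσ⟩
      · rw [h0]; simp
      · have hm : (0 : ℝ) < m.totient := by
          have : 0 < m := by rw [← h𝒞 σ hσ]; exact orderOf_pos σ
          exact_mod_cast Nat.totient_pos.2 this
        rw [hc]
        field_simp
    rw [h1, ← mul_sub, ← Finset.sum_sub_distrib, abs_mul, abs_of_nonneg hc0]
    refine mul_le_mul_of_nonneg_left ?_ hc0
    refine (Finset.abs_sum_le_sum_abs _ _).trans (Finset.sum_le_sum fun σ _ => ?_)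
    rw [← Finset.sum_sub_distrib]
    refine (Finset.abs_sum_le_sum_abs _ _).trans (Finset.sum_le_sum fun d _ => ?_)
    rw [← mul_sub, abs_mul]
    exact mul_le_mul_of_nonneg_left (hBd σ d n) (abs_nonneg _)
  refine ⟨w, c * E₀ + c * ∑ σ ∈ 𝒞, ∑ d ∈ m.divisors, |aa σ d| * Bd σ d, ?_, ?_, ?_⟩
  · intro Q
    rw [hw]
    split_ifs with h
    · obtain ⟨h1, h2, -⟩ := hprops Q h.2.1 h.2.2
      refine ⟨mul_nonneg hc0 h1, ?_⟩
      refine (mul_le_mul_of_nonneg_left h2 hc0).trans ?_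
      rw [hc]
      exact inv_mul_le_one
    · exact ⟨le_rfl, zero_le_one⟩
  · intro n
    exact (abs_sub_le _ _ _).trans (add_le_add (hdiff n) (hmain n))
  · intro Q hne
    rw [hw] at hne
    split_ifs at hne with h
    · have h1 : T Q ≠ 0 := fun h0 => hne (by rw [h0, mul_zero])
      exact ⟨h.1, h.2.1, (le_max_left _ _).trans_lt h.2.2, (hprops Q h.2.1 h.2.2).2.2 h1⟩
    · exact absurd rfl hne

/-- **DFR** -/
theorem t_DFR : S_DFR := dfr mert

end Pool.Agent.Helper28H.QT
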