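import Pool.Agent.Helper28H.FE.Trl

/-!
# Project QT: the twist of a generic polynomial is generic
-/

set_option autoImplicit false

open Polynomial IsDedekindDomain

namespace Pool.Agent.Helper28H.QT

open Pool.Agent.Helper28H.FE
open Pool.Agent.N352.PJ (dsc)

/-- The Galois group does not change under `x ↦ s x`. -/
theorem gal_scale {F : Type} [Field F] (p : F[X]) (hp : p ≠ 0) {s : F} (hs : s ≠ 0) :
    Nat.card (p.scaleRoots s).Gal = Nat.card p.Gal := by
  have hsf : IsSplittingField F p.SplittingField (p.scaleRoots s) := by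
    constructor
    · rw [map_scaleRoots p s (algebraMap F p.SplittingField) (by
        rw [Ne, map_eq_zero]
        exact leadingCoeff_ne_zero.2 hp)]
      exact (SplittingField.splits p).scaleRoots _
    · rw [eq_top_iff, ← IsSplittingField.adjoin_rootSet p.SplittingField p]
      refine Algebra.adjoin_le fun r hr => ?_
      have hr' := (mem_rootSet.1 hr).2
      have h1 : algebraMap F p.SplittingField s * r ∈ (p.scaleRoots s).rootSet p.SplittingField := by
        rw [mem_rootSet]
        exact ⟨scaleRoots_ne_zero hp s, scaleRoots_aeval_eq_zero hr'⟩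
      have h2 : r = algebraMap F p.SplittingField s⁻¹ * (algebraMap F p.SplittingField s * r) := by
        rw [← mul_assoc, ← map_mul, inv_mul_cancel₀ hs, map_one, one_mul]
      rw [SetLike.mem_coe, h2]
      exact Subalgebra.mul_mem _ (Subalgebra.algebraMap_mem _ _) (Algebra.subset_adjoin h1)
  exact Nat.card_congr (AlgEquiv.autCongr (IsSplittingField.algEquiv p.SplittingField
    (p.scaleRoots s))).symm.toEquiv

/-- The twist of a generic polynomial is generic. -/
theorem hyp_scale {g : ℕ} {k K : Type} [Field k] [Field K] [Algebra k[X] K]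
    [IsFractionRing k[X] K] {f : k[X][X]} {P₀ : k[X]} (hyp : Hyp K g f P₀) {D₀ : k[X]}
    (h0 : D₀ ≠ 0) (hP : ¬ P₀ ∣ D₀) : Hyp K g (f.scaleRoots D₀) P₀ := by
  have hprime : Prime P₀ := hyp.prime.prime
  obtain ⟨e, he⟩ : ∃ e : ℕ, dsc g (f.scaleRoots D₀) = D₀ ^ e * dsc g f :=
    ⟨_, (dscInv g k f hyp.mon hyp.deg).2 D₀ h0⟩
  refine ⟨hyp.one, hyp.two, (monic_scaleRoots_iff D₀).2 hyp.mon, by
    rw [natDegree_scaleRoots, hyp.deg], ?_, hyp.prime, ?_, ?_⟩
  · rw [map_scaleRoots f D₀ (algebraMap k[X] K) (by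
      rw [hyp.mon.leadingCoeff, map_one]
      exact one_ne_zero), gal_scale _ (hyp.mon.map _).ne_zero (by
      rw [Ne, IsFractionRing.to_map_eq_zero_iff]
      exact h0), hyp.gal]
  · rw [he]
    exact hyp.dvd.mul_left _
  · rw [he]
    intro hd
    have h1 : IsCoprime (P₀ ^ 2) (D₀ ^ e) :=
      IsCoprime.pow ((hyp.prime.coprime_iff_not_dvd).2 hP)
    exact hyp.ndvd (h1.dvd_of_dvd_mul_left hd)

end Pool.Agent.Helper28H.QT
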