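import Pool.Agent.Helper28H.QT.Main
import Pool.Agent.Helper28H.QT.CNP
import Pool.Agent.Helper28H.QT.Loc
import Pool.Agent.Helper28H.FE.MainE

/-!
# Project QT: the main theorem in the notation of project FE
-/

set_option autoImplicit false

open Polynomial IsDedekindDomain
open scoped Classical

namespace Pool.Agent.Helper28H.QT

open Pool.Agent.Helper28H.FE
open Pool.Agent.N352.PJ (dsc)
open Pool.Agent.N352.JB (SelTriv)

theorem irr_scale {F : Type} [Field F] {p : F[X]} (hp : Irreducible p) {u : F} (hu : u ≠ 0) :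
    Irreducible (p.scaleRoots u) := by
  refine ⟨fun h => hp.not_isUnit ?_, fun a b hab => ?_⟩
  · rw [isUnit_iff_degree_eq_zero] at h ⊢
    rwa [degree_scaleRoots] at h
  · have h1 : p = a.scaleRoots u⁻¹ * b.scaleRoots u⁻¹ := by
      rw [← mul_scaleRoots_of_noZeroDivisors, ← hab, ← scaleRoots_mul, mul_inv_cancel₀ hu,
        scaleRoots_one]
    rcases hp.isUnit_or_isUnit h1 with h | h
    · left
      rw [isUnit_iff_degree_eq_zero] at h ⊢
      rwa [degree_scaleRoots] at h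
    · right
      rw [isUnit_iff_degree_eq_zero] at h ⊢
      rwa [degree_scaleRoots] at h

theorem irr_scale_mod {k : Type} [Field k] {f : k[X][X]} (hf : f.Monic) {P D₀ : k[X]}
    (hP : Irreducible P) (hd : ¬ P ∣ D₀)
    (h : Irreducible (f.map (Ideal.Quotient.mk (Ideal.span {P})))) :
    Irreducible ((f.scaleRoots D₀).map (Ideal.Quotient.mk (Ideal.span {P}))) := by
  have hmax : (Ideal.span {P}).IsMaximal := PrincipalIdealRing.isMaximal_of_irreducible hP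
  let _ : Field (k[X] ⧸ Ideal.span {P}) := Ideal.Quotient.field _
  rw [map_scaleRoots f D₀ _ (by
    rw [hf.leadingCoeff, map_one]
    exact one_ne_zero)]
  refine irr_scale h ?_
  rw [Ne, Ideal.Quotient.eq_zero_iff_mem, Ideal.mem_span_singleton]
  exact hd

section

variable {k : Type} [Field k] (K : Type) [Field K] [Algebra k[X] K] [IsFractionRing k[X] K]
  {R₁ : Type} [CommRing R₁] [IsDedekindDomain R₁] [Algebra R₁ K] [IsFractionRing R₁ K]
  (v₁ : HeightOneSpectrum R₁)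

/-- The twist by `D₀ D₁` has no 2-part over all admissible fields, and `D₁` is a square at infinity
and at the primes in `S`. -/
structure Good (g : ℕ) (f : k[X][X]) (S : Finset k[X]) (D₀ d D₁ : k[X]) : Prop where
  mon : D₁.Monic
  sqf : Squarefree (D₀ * D₁)
  dvd : d ∣ D₁
  inf : IsSquare (algebraMap K (v₁.adicCompletion K) (algebraMap k[X] K D₁))
  loc : ∀ P ∈ S, ∀ v : HeightOneSpectrum k[X], v.asIdeal = Ideal.span {P} →
    IsSquare (algebraMap K (v.adicCompletion K) (algebraMap k[X] K D₁))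
  sel : ∀ (M R : Type) [Field M] [Algebra K M] [Algebra k[X] M] [IsScalarTower k[X] K M]
    [FiniteDimensional K M] [CommRing R] [IsDedekindDomain R]
    [Algebra R M] [IsFractionRing R M] [Algebra k[X] R] [IsScalarTower k[X] R M]
    [IsIntegralClosure R k[X] M], AdmM g K M v₁ f (D₀ * d) →
    Irreducible ((f.scaleRoots (D₀ * D₁)).map (algebraMap k[X] M)) ∧
    SelTriv (Plc K R v₁) ((f.scaleRoots (D₀ * D₁)).map (algebraMap k[X] M))

end

/-- The bad primes, and the prime divisors of `d`. -/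
theorem exists_T {k K : Type} [Field k] [Field K] [Algebra k[X] K] [IsFractionRing k[X] K] {g : ℕ}
    {f : k[X][X]} {P₀ : k[X]} (h : Hyp K g f P₀) {d : k[X]} (hd : d ≠ 0) (hP₀ : ¬ P₀ ∣ d) :
    ∃ T : Finset k[X], (∀ P ∈ T, P.Monic ∧ Irreducible P ∧ ¬ P₀ ∣ P) ∧
    ∀ P : k[X], Irreducible P → P ^ 2 ∣ dsc g f ∨ P ∣ d → ∃ P' ∈ T, Associated P P' := by
  have h0 : dsc g f ≠ 0 := fun h0 => h.ndvd (by rw [h0]; exact dvd_zero _)
  obtain ⟨T, hT⟩ : ∃ T : Finset k[X], T =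
    ((UniqueFactorizationMonoid.normalizedFactors (dsc g f * d)).toFinset).filter
      fun P => P ^ 2 ∣ dsc g f ∨ P ∣ d := ⟨_, rfl⟩
  have hTm : ∀ P ∈ T, P.Monic ∧ Irreducible P ∧ (P ^ 2 ∣ dsc g f ∨ P ∣ d) := by
    intro P hP
    rw [hT, Finset.mem_filter, Multiset.mem_toFinset] at hP
    have h2 := UniqueFactorizationMonoid.irreducible_of_normalized_factor _ hP.1
    refine ⟨?_, h2, hP.2⟩
    have h3 := UniqueFactorizationMonoid.normalize_normalized_factor _ hP.1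
    rw [← h3]
    exact monic_normalize h2.ne_zero
  refine ⟨T, fun P hP => ⟨(hTm P hP).1, (hTm P hP).2.1, fun hd' => ?_⟩, fun P hP hb => ?_⟩
  · have ha := h.prime.associated_of_dvd (hTm P hP).2.1 hd'
    rcases (hTm P hP).2.2 with h3 | h3
    · exact h.ndvd ((pow_dvd_pow_of_dvd ha.dvd 2).trans h3)
    · exact hP₀ (ha.dvd.trans h3)
  · have hdv : P ∣ dsc g f * d := by
      rcases hb with h3 | h3
      · exact (((dvd_pow_self P two_ne_zero).trans h3)).mul_right _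
      · exact h3.mul_left _
    obtain ⟨P', hP', ha⟩ := UniqueFactorizationMonoid.exists_mem_normalizedFactors_of_dvd
      (mul_ne_zero h0 hd) hP hdv
    refine ⟨P', ?_, ha⟩
    rw [hT, Finset.mem_filter, Multiset.mem_toFinset]
    refine ⟨hP', ?_⟩
    rcases hb with h3 | h3
    · exact Or.inl ((pow_dvd_pow_of_dvd ha.symm.dvd 2).trans h3)
    · exact Or.inr (ha.symm.dvd.trans h3)

/-- Products of squares modulo `P`. -/
theorem sq_prod {k : Type} [Field k] {P : k[X]} (J : Finset k[X])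
    (h : ∀ Q ∈ J, ∃ z : k[X], P ∣ Q - z ^ 2) : ∃ z : k[X], P ∣ (∏ Q ∈ J, Q) - z ^ 2 := by
  induction J using Finset.induction_on with
  | empty => exact ⟨1, by simp⟩
  | insert Q J hQ ih =>
    obtain ⟨z, hz⟩ := h Q (Finset.mem_insert_self _ _)
    obtain ⟨y, hy⟩ := ih fun Q' hQ' => h Q' (Finset.mem_insert_of_mem hQ')
    refine ⟨z * y, ?_⟩
    rw [Finset.prod_insert hQ]
    have e : Q * ∏ Q' ∈ J, Q' - (z * y) ^ 2 =
        (Q - z ^ 2) * ∏ Q' ∈ J, Q' + z ^ 2 * ((∏ Q' ∈ J, Q') - y ^ 2) := by ring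
    rw [e]
    exact dvd_add (hz.mul_right _) (hy.mul_left _)

/-- The main theorem. -/
theorem core (hCNT : S_CNT) (hCNP : S_CNP) (g : ℕ) (k K : Type) [Field k] [Finite k] [Field K] [Algebra k[X] K]
    [IsFractionRing k[X] K] (f : k[X][X]) (P₀ : k[X]) (R₁ : Type) [CommRing R₁]
    [IsDedekindDomain R₁] [Algebra R₁ K] [IsFractionRing R₁ K] (v₁ : HeightOneSpectrum R₁)
    (E₀ : Type) [Field E₀] [Algebra K E₀] [Algebra k[X] E₀] [IsScalarTower k[X] K E₀]
    [FiniteDimensional K E₀] [IsGalois K E₀] (B : ℕ) (hyp : Hyp K g f P₀)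
    (hv : IsInf k (K := K) v₁) (hE : UnrAt E₀ P₀) (S : Finset k[X])
    (hS' : ∀ P ∈ S, P.Monic ∧ Irreducible P ∧ ¬ P₀ ∣ P) (D₀ : k[X]) (hD₀ : Squarefree D₀)
    (hPD : ¬ P₀ ∣ D₀) : ∃ d : k[X], d.Monic ∧ Squarefree (D₀ * d) ∧ ¬ P₀ ∣ D₀ * d ∧
    (∀ Q : k[X], Irreducible Q → Q ∣ d → B < Q.natDegree ∧ Even Q.natDegree ∧ SplitsIn E₀ Q) ∧
    ∃ (c : ℝ) (N₀ : ℕ), 0 < c ∧ ∀ N : ℕ, N₀ ≤ N →
      c * (Nat.card k : ℝ) ^ N / (N : ℝ) ^ ((2 * g : ℝ) / (2 * g + 1)) ≤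
      (({D₁ : k[X] | Good K v₁ g f S D₀ d D₁ ∧ (D₀ * D₁).natDegree ≤ N}.ncard : ℕ) : ℝ) ∧
      c * (Nat.card k : ℝ) ^ N / (N : ℝ) ≤
      (({p : k[X] | p.natDegree ≤ N ∧ Irreducible p ∧ Good K v₁ g f S D₀ d (d * p)}.ncard : ℕ) :
        ℝ) := by
  have h0 : D₀ ≠ 0 := hD₀.ne_zero
  have h2 := hyp.two
  have hyp' := hyp_scale hyp h0 hPD
  have hdsc := (dscInv g k f hyp.mon hyp.deg).2 D₀ h0
  obtain ⟨E, iF, iA, iX, iT, iFD, iG, ⟨ι⟩, hu, hsq⟩ := cyc k K E₀ P₀ S h2 hyp.prime hE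
    fun P hP => (hS' P hP).2.2
  obtain ⟨J, hJ, hJsq, hall⟩ := MainE.mainT g k K (f.scaleRoots D₀) P₀ R₁ v₁ E
    (max B (P₀.natDegree + D₀.natDegree + ∑ P ∈ S, P.natDegree)) hyp' hv hu
  obtain ⟨d, hdd⟩ : ∃ d : k[X], d = ∏ Q ∈ J, Q := ⟨_, rfl⟩
  have hJ' : ∀ Q ∈ J, Q.Monic ∧ Irreducible Q := fun Q hQ => ⟨(hJ Q hQ).1, (hJ Q hQ).2.1⟩
  have hmem : ∀ P : k[X], Irreducible P → P ∣ d → ∃ Q ∈ J, Associated P Q := by
    intro P hP h
    rw [hdd] at h
    obtain ⟨Q, hQ, hd⟩ := hP.prime.exists_mem_finset_dvd h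
    exact ⟨Q, hQ, hP.associated_of_dvd (hJ Q hQ).2.1 hd⟩
  have hdm : d.Monic := by
    rw [hdd]
    exact monic_prod_of_monic _ _ fun Q hQ => (hJ Q hQ).1
  have hd0 : d ≠ 0 := hdm.ne_zero
  have hdeg : ∀ {P Q : k[X]}, Associated P Q → P.natDegree = Q.natDegree := fun h =>
    natDegree_eq_of_degree_eq (degree_eq_degree_of_associated h)
  have hbig : ∀ P : k[X], Irreducible P → P ∣ d → B < P.natDegree ∧
      P₀.natDegree + D₀.natDegree + ∑ P ∈ S, P.natDegree < P.natDegree ∧ Even P.natDegree := by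
    intro P hP h
    obtain ⟨Q, hQ, ha⟩ := hmem P hP h
    obtain ⟨a1, a2, a3, a4, a5⟩ := hJ Q hQ
    rw [hdeg ha]
    exact ⟨lt_of_le_of_lt (le_max_left _ _) a3, lt_of_le_of_lt (le_max_right _ _) a3, a4⟩
  have hP₀d : ¬ P₀ ∣ d := by
    intro h
    have := (hbig P₀ hyp.prime h).2.1
    omega
  have hsqd : Squarefree d := by
    rw [hdd]
    exact prod_sqf J hJ'
  have hcopD : ∀ P : k[X], Irreducible P → P ∣ d → ¬ P ∣ D₀ := by
    intro P hP hPd hPD₀
    have h3 := natDegree_le_of_dvd hPD₀ h0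
    have := (hbig P hP hPd).2.1
    omega
  have hdS : ∀ P ∈ S, ¬ P ∣ d := by
    intro P hP hPd
    have h3 : P.natDegree ≤ ∑ P ∈ S, P.natDegree :=
      Finset.single_le_sum (f := fun P : k[X] => P.natDegree) (fun _ _ => Nat.zero_le _) hP
    have := (hbig P (hS' P hP).2.1 hPd).2.1
    omega
  obtain ⟨hsql1, hsql2⟩ := sql k K h2
  have hdev : Even d.natDegree := by
    rw [hdd, natDegree_prod_of_monic _ _ fun Q hQ => (hJ Q hQ).1]
    exact Finset.even_sum _ fun Q hQ => (hJ Q hQ).2.2.2.1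
  -- `d` is a square modulo the primes in `S`
  have hdsq : ∀ P ∈ S, ∃ z : k[X], P ∣ d - z ^ 2 := by
    intro P hP
    rw [hdd]
    refine sq_prod J fun Q hQ => ?_
    obtain ⟨a1, a2, a3, a4, a5⟩ := hJ Q hQ
    obtain ⟨-, hspl⟩ := t_SPL k K E Q a2 a5
    obtain ⟨hqr1, -⟩ := t_QR k h2 Q a1 a2
    refine hqr1 P (hS' P hP).1 (hS' P hP).2.1 ?_ a4 (hspl P (hsq P hP))
    rintro rfl
    exact hdS _ hP (by rw [hdd]; exact Finset.dvd_prod_of_mem _ hQ)
  have hsqDd : Squarefree (D₀ * d) := squarefree_mul_iff.2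
    ⟨WfDvdMonoid.isRelPrime_of_no_irreducible_factors (fun h => h0 h.1)
      fun P hP h3 h4 => hcopD P hP h4 h3, hD₀, hsqd⟩
  have hP₀Dd : ¬ P₀ ∣ D₀ * d := by
    intro h
    rcases hyp.prime.prime.dvd_or_dvd h with h | h
    · exact hPD h
    · exact hP₀d h
  refine ⟨d, hdm, hsqDd, hP₀Dd, fun Q hQ hQd => ?_, ?_⟩
  · obtain ⟨b1, -, b2⟩ := hbig Q hQ hQd
    refine ⟨b1, b2, ?_⟩
    obtain ⟨Q', hQ', ha⟩ := hmem Q hQ hQd
    obtain ⟨a1, a2, a3, a4, a5⟩ := hJ Q' hQ'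
    have h5 := (t_SPL k K E Q' a2 a5).1 E₀ ι
    have key : ∀ I : Ideal (integralClosure k[X] E₀),
        (algebraMap k[X] (integralClosure k[X] E₀) Q ∈ I ↔
          algebraMap k[X] (integralClosure k[X] E₀) Q' ∈ I) := by
      intro I
      constructor
      · obtain ⟨u, hu⟩ := ha
        intro h1
        rw [← hu, map_mul]
        exact Ideal.mul_mem_right _ _ h1
      · obtain ⟨u, hu⟩ := ha.symm
        intro h1
        rw [← hu, map_mul]
        exact Ideal.mul_mem_right _ _ h1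
    intro w hw
    obtain ⟨c1, c2⟩ := h5 w ((key _).1 hw)
    exact ⟨fun h3 => c1 ((key _).1 h3), c2⟩
  -- the bad primes of the twist by `D₀`
  obtain ⟨T₁, hT₁, hT₁P⟩ := exists_T hyp' hd0 hP₀d
  have hT : ∀ P ∈ T₁ ∪ S, P.Monic ∧ Irreducible P ∧ ¬ P₀ ∣ P := by
    intro P hP
    rcases Finset.mem_union.1 hP with h | h
    · exact hT₁ P h
    · exact hS' P h
  -- the polynomial `d δ`
  have hgood : ∀ (n : ℕ) (δ : k[X]), δ ∈ AdmSet (f.scaleRoots D₀) (T₁ ∪ S) n →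
      Good K v₁ g f S D₀ d (d * δ) := by
    intro n δ hδ
    obtain ⟨δ1, δ2, δ3, δ4, δ5, δ6⟩ := hδ
    have hδ0 : δ ≠ 0 := δ1.ne_zero
    have hδT : ∀ P : k[X], Irreducible P → P ^ 2 ∣ dsc g (f.scaleRoots D₀) ∨ P ∣ d →
        ¬ P ∣ δ ∧ ∃ z : k[X], P ∣ δ - z ^ 2 := by
      intro P hP hb
      obtain ⟨P', hP', ha⟩ := hT₁P P hP hb
      obtain ⟨c1, z, c2⟩ := δ6 P' (Finset.mem_union_left _ hP')
      exact ⟨fun hd => c1 (ha.symm.dvd.trans hd), z, ha.dvd.trans c2⟩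
    have hbadD : ∀ P : k[X], P ∣ D₀ → P ^ 2 ∣ dsc g (f.scaleRoots D₀) := by
      intro P hP
      rw [hdsc]
      have h3 : 2 ≤ (2 * g + 1) * (2 * g) := by
        have := hyp.one
        nlinarith
      exact ((pow_dvd_pow_of_dvd hP 2).trans (pow_dvd_pow _ h3)).mul_right _
    have hadm : AdmD g K v₁ (f.scaleRoots D₀) δ := by
      refine ⟨hδ0, δ5, fun P v hP hvP hP2 => ?_, hsql1 R₁ v₁ hv δ δ1 δ4⟩
      obtain ⟨c1, z, c2⟩ := hδT P hP (Or.inl hP2)
      exact hsql2 P δ z v hP hvP c1 c2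
    refine ⟨hdm.mul δ1, ?_, Dvd.intro _ rfl, ?_, ?_, ?_⟩
    · -- squarefree
      refine squarefree_mul_iff.2 ⟨WfDvdMonoid.isRelPrime_of_no_irreducible_factors (fun h => h0 h.1)
        fun P hP h3 h4 => ?_, hD₀, squarefree_mul_iff.2
          ⟨WfDvdMonoid.isRelPrime_of_no_irreducible_factors (fun h => hd0 h.1)
            fun P hP h3 h4 => (hδT P hP (Or.inr h3)).1 h4, hsqd, δ2⟩⟩
      rcases hP.prime.dvd_or_dvd h4 with h5 | h5
      · exact hcopD P hP h5 h3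
      · exact (hδT P hP (Or.inl (hbadD P h3))).1 h5
    · refine hsql1 R₁ v₁ hv _ (hdm.mul δ1) ?_
      rw [hdm.natDegree_mul δ1]
      exact hdev.add δ4
    · intro P hP v hvP
      obtain ⟨c1, z, c2⟩ := δ6 P (Finset.mem_union_right _ hP)
      obtain ⟨y, hy⟩ := hdsq P hP
      refine hsql2 P (d * δ) (y * z) v (hS' P hP).2.1 hvP ?_ ?_
      · intro hd
        rcases (hS' P hP).2.1.prime.dvd_or_dvd hd with h5 | h5
        · exact hdS P hP h5
        · exact c1 h5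
      · have e : d * δ - (y * z) ^ 2 = (d - y ^ 2) * δ + y ^ 2 * (δ - z ^ 2) := by ring
        rw [e]
        exact dvd_add (hy.mul_right _) (c2.mul_left _)
    · intro M R _ _ _ _ _ _ _ _ _ _ _ _ hM
      have hMadm : AdmM g K M v₁ (f.scaleRoots D₀) (∏ Q ∈ J, Q) := by
        rw [← hdd]
        refine ⟨hM.gal, hM.deg, fun P hP hP2 => ?_, fun P hP hPd => hM.spl P hP (hPd.mul_left _),
          fun P hP hr => ?_, hM.inf⟩
        · by_cases hPD₀ : P ∣ D₀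
          · exact hM.spl P hP (hPD₀.mul_right _)
          · refine hM.bad P hP ?_
            rw [hdsc] at hP2
            have hc : IsCoprime (P ^ 2) (D₀ ^ ((2 * g + 1) * (2 * g))) :=
              IsCoprime.pow ((hP.coprime_iff_not_dvd).2 hPD₀)
            exact hc.dvd_of_dvd_mul_left hP2
        · refine irr_scale_mod hyp.mon hP (fun hPD₀ => ?_) (hM.ram P hP hr)
          exact hr fun w hw => (hM.spl P hP (hPD₀.mul_right _) w hw).1
      have h5 := hall δ hadm M R hMadm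
      rw [← hdd, ← scaleRoots_mul] at h5
      exact h5
  obtain ⟨c, N₀, hc, hcount⟩ := main_count hCNT hyp' (T₁ ∪ S) hT (D₀ * d) (mul_ne_zero h0 hd0)
  obtain ⟨c', N₀', hc', hcount'⟩ := hCNP g k K (f.scaleRoots D₀) P₀ hyp' (T₁ ∪ S) hT
  refine ⟨min c c', max N₀ N₀', lt_min hc hc', fun N hN => ⟨?_, ?_⟩⟩
  · have hfin : {D : k[X] | ∃ D₁, D = D₀ * D₁ ∧ Good K v₁ g f S D₀ d D₁ ∧
        (D₀ * D₁).natDegree ≤ N}.Finite := by
      refine (fin_natDegree (k := k) N).subset ?_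
      rintro D ⟨D₁, rfl, -, h3⟩
      exact h3
    have hle : ({D : k[X] | ∃ D₁, D = D₀ * D₁ ∧ Good K v₁ g f S D₀ d D₁ ∧
        (D₀ * D₁).natDegree ≤ N}.ncard) ≤
        {D₁ : k[X] | Good K v₁ g f S D₀ d D₁ ∧ (D₀ * D₁).natDegree ≤ N}.ncard := by
      have hfin2 : {D₁ : k[X] | Good K v₁ g f S D₀ d D₁ ∧ (D₀ * D₁).natDegree ≤ N}.Finite := by
        refine Set.Finite.of_finite_image (f := fun D₁ => D₀ * D₁) (hfin.subset ?_) ?_
        · rintro _ ⟨D₁, ⟨h3, h4⟩, rfl⟩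
          exact ⟨D₁, rfl, h3, h4⟩
        · intro a _ b _ hab
          exact mul_left_cancel₀ h0 hab
      have himg : {D : k[X] | ∃ D₁, D = D₀ * D₁ ∧ Good K v₁ g f S D₀ d D₁ ∧
          (D₀ * D₁).natDegree ≤ N} = (fun D₁ => D₀ * D₁) ''
          {D₁ : k[X] | Good K v₁ g f S D₀ d D₁ ∧ (D₀ * D₁).natDegree ≤ N} := by
        ext D
        constructor
        · rintro ⟨D₁, rfl, h3, h4⟩
          exact ⟨D₁, ⟨h3, h4⟩, rfl⟩
        · rintro ⟨D₁, ⟨h3, h4⟩, rfl⟩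
          exact ⟨D₁, rfl, h3, h4⟩
      rw [himg]
      exact Set.ncard_image_le hfin2
    obtain ⟨hNd, hcN⟩ := hcount N ((le_max_left _ _).trans hN)
    refine le_trans ?_ ((hcN _ hfin fun δ hδ => ?_).trans (by exact_mod_cast hle))
    · exact div_le_div_of_nonneg_right (mul_le_mul_of_nonneg_right (min_le_left _ _) (by positivity))
        (by positivity)
    · obtain ⟨δ1, δ2, δ3, -, -, -⟩ := id hδ
      refine ⟨d * δ, by rw [mul_assoc], hgood _ _ hδ, ?_⟩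
      rw [← mul_assoc, natDegree_mul (mul_ne_zero h0 hd0) δ1.ne_zero]
      omega
  · refine le_trans ?_ ((hcount' N ((le_max_right _ _).trans hN)).trans ?_)
    · exact div_le_div_of_nonneg_right (mul_le_mul_of_nonneg_right (min_le_right _ _)
        (by positivity)) (by positivity)
    · norm_cast
      refine Set.ncard_le_ncard (fun δ hδ => ⟨hδ.1.2.2.1, hδ.2, hgood _ _ hδ.1⟩)
        ((fin_natDegree (k := k) N).subset fun δ hδ => hδ.1)

end Pool.Agent.Helper28H.QT
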