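import Pool.Agent.Helper28H.QT.CNT

/-!
# Project QT: the number of multiples of `d`
-/

set_option autoImplicit false

open Polynomial IsDedekindDomain

namespace Pool.Agent.Helper28H.QT

open Pool.Agent.Helper28H.FE

theorem AdmSet.prod {k : Type} [Field k] {f : k[X][X]} {T : Finset k[X]} {n : ℕ} {δ : k[X]}
    (h : δ ∈ AdmSet f T n) {d : k[X]} (hd : d.Monic) (hsq : Squarefree d)
    (hdT : ∀ P, Irreducible P → P ∣ d → ∃ P' ∈ T, Associated P P') :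
    (d * δ).Monic ∧ Squarefree (d * δ) ∧ (d * δ).natDegree ≤ d.natDegree + n := by
  obtain ⟨h1, h2, h3, -, -, h6⟩ := h
  refine ⟨hd.mul h1, squarefree_mul_iff.2 ⟨?_, hsq, h2⟩, ?_⟩
  · refine WfDvdMonoid.isRelPrime_of_no_irreducible_factors (fun h0 => hd.ne_zero h0.1)
      fun P hP hPd hPδ => ?_
    obtain ⟨P', hP', ha⟩ := hdT P hP hPd
    exact (h6 P' hP').1 (ha.symm.dvd.trans hPδ)
  · rw [hd.natDegree_mul h1]
    omega

/-- The number of the `d δ`. -/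
theorem main_count (hCNT : S_CNT) {g : ℕ} {k K : Type} [Field k] [Finite k] [Field K]
    [Algebra k[X] K] [IsFractionRing k[X] K] {f : k[X][X]} {P₀ : k[X]} (hyp : Hyp K g f P₀)
    (T : Finset k[X]) (hT : ∀ P ∈ T, P.Monic ∧ Irreducible P ∧ ¬ P₀ ∣ P) (d : k[X])
    (hd : d ≠ 0) : ∃ (c : ℝ) (N₀ : ℕ), 0 < c ∧ ∀ N : ℕ, N₀ ≤ N → d.natDegree ≤ N ∧
      ∀ 𝒟 : Set k[X], 𝒟.Finite → (∀ δ ∈ AdmSet f T (N - d.natDegree), d * δ ∈ 𝒟) →
      c * (Nat.card k : ℝ) ^ N / (N : ℝ) ^ ((2 * g : ℝ) / (2 * g + 1)) ≤ (𝒟.ncard : ℝ) := by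
  obtain ⟨c, N₀, hc, h⟩ := hCNT g k K f P₀ hyp T hT
  have hq : (0 : ℝ) < (Nat.card k : ℝ) := by
    exact_mod_cast Nat.card_pos (α := k)
  refine ⟨c * ((Nat.card k : ℝ) ^ d.natDegree)⁻¹, N₀ + d.natDegree + 1, by positivity,
    fun N hN => ⟨by omega, fun 𝒟 hfin h𝒟 => ?_⟩⟩
  obtain ⟨hf1, hle⟩ := h (N - d.natDegree) (by omega)
  have h1 : ((AdmSet f T (N - d.natDegree)).ncard : ℝ) ≤ (𝒟.ncard : ℝ) := by
    norm_cast
    exact Set.ncard_le_ncard_of_injOn (fun δ => d * δ) h𝒟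
      (fun a _ b _ hab => mul_left_cancel₀ hd hab) hfin
  refine le_trans (le_trans ?_ hle) h1
  have hNd : ((N - d.natDegree : ℕ) : ℝ) ≤ (N : ℝ) := by exact_mod_cast Nat.sub_le _ _
  have hNd0 : (0 : ℝ) < ((N - d.natDegree : ℕ) : ℝ) := by
    exact_mod_cast (by omega : 0 < N - d.natDegree)
  have hN0 : (0 : ℝ) < (N : ℝ) := hNd0.trans_le hNd
  have hexp : (2 * g + 1 : ℝ)⁻¹ - 1 = -((2 * g : ℝ) / (2 * g + 1)) := by
    have : (2 * g + 1 : ℝ) ≠ 0 := by positivity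
    field_simp
    ring
  have h2 : (N : ℝ) ^ ((2 * g + 1 : ℝ)⁻¹ - 1) ≤
      ((N - d.natDegree : ℕ) : ℝ) ^ ((2 * g + 1 : ℝ)⁻¹ - 1) := by
    refine Real.rpow_le_rpow_of_nonpos hNd0 hNd ?_
    rw [hexp]
    exact neg_nonpos.2 (by positivity)
  have h3 : (Nat.card k : ℝ) ^ N = (Nat.card k : ℝ) ^ (N - d.natDegree) *
      (Nat.card k : ℝ) ^ d.natDegree := by
    rw [← pow_add]
    congr 1
    omega
  have h4 : c * ((Nat.card k : ℝ) ^ d.natDegree)⁻¹ * (Nat.card k : ℝ) ^ N /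
      (N : ℝ) ^ ((2 * g : ℝ) / (2 * g + 1)) =
      c * (Nat.card k : ℝ) ^ (N - d.natDegree) * (N : ℝ) ^ ((2 * g + 1 : ℝ)⁻¹ - 1) := by
    rw [hexp, Real.rpow_neg hN0.le, h3]
    have : (Nat.card k : ℝ) ^ d.natDegree ≠ 0 := by positivity
    field_simp
  rw [h4]
  exact mul_le_mul_of_nonneg_left h2 (by positivity)

end Pool.Agent.Helper28H.QT
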